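import Pool.Agent.L5helper53.DF.Strings

/-!
The back-and-forth property.
-/

set_option linter.unusedSectionVars false

namespace Pool.Agent.L5helper53.DF

variable {κ : Type} [Fintype κ]

/-- A string whose length is the length of one of the `a i` has a branching point. -/
theorem exists_branch (a : κ → W) (x : W) (i0 : κ) (hi0 : (a i0).len = x.len) :
    ∃ (e : κ → ZMod 2) (w : ℕ), Branch a x e w ∧
      ((∀ i, e i ≠ 0 → w < (a i).len) ∨ ∀ c, Lev c a x.len →
        (∀ i, c i ≠ 0 → w < (a i).len) → ¬ (c = e ∨ w ≤ vv (c + e) a)) := by
  classical
  have hfin : Finite {c : κ → ZMod 2 | Lev c a x.len} := inferInstance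
  have hne : {c : κ → ZMod 2 | Lev c a x.len}.Nonempty := by
    refine ⟨Pi.single i0 1, fun s => ?_⟩
    rw [par_single, hi0]
  obtain ⟨e0, he0, hmax0⟩ := Set.Finite.exists_maximalFor
    (fun c => vv (one' c) (ext a x)) {c : κ → ZMod 2 | Lev c a x.len} hfin hne
  have hmax : ∀ c, Lev c a x.len → vv (one' c) (ext a x) ≤ vv (one' e0) (ext a x) := by
    intro c hc
    rcases le_total (vv (one' c) (ext a x)) (vv (one' e0) (ext a x)) with h1 | h1
    · exact h1
    · exact hmax0 hc h1
  set w := vv (one' e0) (ext a x) with hw
  have hle : ∀ c, Lev c a x.len → ∀ u, u ≤ vv (one' c) (ext a x) ↔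
      (∀ i, c i ≠ 0 → u ≤ (a i).len) ∧ ∀ j < u, x.bit j = hs c a j := by
    intro c hc u
    rw [le_vv (one'_ne_zero c) ((bal_ext_one' c a x).2 hc), cond_ext_one']
    simp only [hc, true_and]
  -- a maximal element gives a branching point
  have key : ∀ e, Lev e a x.len → vv (one' e) (ext a x) = w → Branch a x e w := by
    intro e he hew
    have h1 := (hle e he w).1 hew.ge
    refine ⟨he, h1.1, h1.2, ?_⟩
    intro c hc hlt hor heq
    have h2 : w + 1 ≤ vv (one' c) (ext a x) := by
      rw [hle c hc]
      refine ⟨fun i hi => hlt i hi, fun j hj => ?_⟩
      rcases Nat.lt_succ_iff_lt_or_eq.1 hj with hj | rfl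
      · rcases hor with rfl | hor
        · exact h1.2 j hj
        · by_cases hce : c = e
          · subst hce
            exact h1.2 j hj
          · have h3 := ((le_vv (fun_add_ne_zero hce) (hc.add he)).1 hor).2.2.2 j hj
            rw [hs_add, zmod2_add_eq_zero] at h3
            rw [h3]
            exact h1.2 j hj
      · exact heq
    have := hmax c hc
    omega
  by_cases hfree : ∃ e, Lev e a x.len ∧ vv (one' e) (ext a x) = w ∧
      ∀ i, e i ≠ 0 → w < (a i).len
  · obtain ⟨e, he, hew, hf⟩ := hfree
    exact ⟨e, w, key e he hew, Or.inl hf⟩
  · refine ⟨e0, w, key e0 he0 rfl, Or.inr ?_⟩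
    intro c hc hlt hor
    apply hfree
    refine ⟨c, hc, le_antisymm (hmax c hc) ?_, hlt⟩
    rw [hle c hc]
    refine ⟨fun i hi => (hlt i hi).le, fun j hj => ?_⟩
    have h1 := (hle e0 he0 w).1 le_rfl
    by_cases hce : c = e0
    · subst hce
      exact h1.2 j hj
    · rcases hor with hor | hor
      · exact absurd hor hce
      · have h3 := ((le_vv (fun_add_ne_zero hce) (hc.add he0)).1 hor).2.2.2 j hj
        rw [hs_add, zmod2_add_eq_zero] at h3
        rw [h3]
        exact h1.2 j hj

/-- The landmarks of the extended tuple, in the case of a new length. -/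
theorem val_ext_new (a : κ → W) (x : W) (hx : ∀ i, (a i).len ≠ x.len) (t : Tm (Option κ)) :
    IsLeast ((fun o : Option (Tm κ) => o.elim (x.len : ℤ) (val a)) ''
      (match t with
        | none => {some none}
        | some (.inl none) => {none}
        | some (.inl (some i)) => {some (some (.inl i))}
        | some (.inr c) => if c none = 0 then {some (some (.inr fun i => c (some i)))} else
            {some none})) (val (ext a x) t) := by
  match t with
  | none => simp [val]
  | some (.inl none) => simp [val, ext]
  | some (.inl (some i)) => simp [val, ext]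
  | some (.inr c) =>
    by_cases hc : c none = 0
    · simp [hc, val, vv_ext_zero hc]
    · have h1 : ¬ Bal c (ext a x) := by
        rw [eq_one' hc, bal_ext_one']
        intro h
        obtain ⟨i, _, hi⟩ := h.exists
        exact hx i hi
      simp [hc, val, vv_of_not_bal h1]

/-- The landmarks of the extended tuple, in the case of a length of the tuple. -/
theorem val_ext_old [DecidableEq κ] (a : κ → W) (x : W) (i0 : κ) (hx : (a i0).len = x.len)
    {e : κ → ZMod 2} {w : ℕ} (h : Branch a x e w) (P : (κ → ZMod 2) → Prop)
    [DecidablePred P] (hP : ∀ c, P c ↔ Lev c a x.len) (t : Tm (Option κ)) :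
    IsLeast ((fun o : Option (Tm κ) => o.elim (w : ℤ) (val a)) ''
      (match t with
        | none => {some none}
        | some (.inl none) => {some (some (.inl i0))}
        | some (.inl (some i)) => {some (some (.inl i))}
        | some (.inr c) => if c none = 0 then {some (some (.inr fun i => c (some i)))} else
            if P (fun i => c (some i)) then SS e (fun i => c (some i)) else {some none}))
      (val (ext a x) t) := by
  match t with
  | none => simp [val]
  | some (.inl none) => simp [val, ext, hx]
  | some (.inl (some i)) => simp [val, ext]
  | some (.inr c) =>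
    by_cases hc : c none = 0
    · simp [hc, val, vv_ext_zero hc]
    · by_cases hp : P (fun i => c (some i))
      · simp only [hc, if_false, hp, if_true, val]
        have := h.isLeast ((hP _).1 hp)
        rwa [← eq_one' hc] at this
      · have h1 : ¬ Bal c (ext a x) := by
          rw [eq_one' hc, bal_ext_one', ← hP]
          exact hp
        simp [hc, val, vv_of_not_bal h1, hp]

/-- **The back-and-forth property.** -/
theorem back {d : ℕ} {a a' : κ → W} (h : Sim (2 * d + 1) (val a) (val a')) (x : W) :
    ∃ x' : W, Sim d (val (ext a x)) (val (ext a' x')) := by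
  classical
  by_cases hx : ∀ i, (a i).len ≠ x.len
  · obtain ⟨w', hw'⟩ := h.extend none (x.len : ℤ) (by simp [val])
    have h0 : 0 ≤ w' := by
      have := hw'.le_iff (some none) none
      simp only [Option.elim, val] at this
      omega
    obtain ⟨s', rfl⟩ := Int.eq_ofNat_of_zero_le h0
    refine ⟨str (fun _ => 0) s', ?_⟩
    have hx' : ∀ i, (a' i).len ≠ (str (fun _ => 0) s').len := by
      intro i hi
      have := hw'.eq_iff (some (some (.inl i))) none
      simp only [Option.elim, val, str_len] at this hi
      have := hx i
      omega
    exact hw'.least _ (val_ext_new a x hx) (val_ext_new a' _ hx')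
  · push Not at hx
    obtain ⟨i0, hi0⟩ := hx
    obtain ⟨e, w, hb, hor⟩ := exists_branch a x i0 hi0
    -- the corresponding landmark
    obtain ⟨w', hw', hor'⟩ : ∃ w' : ℕ, Sim d (fun o : Option (Tm κ) => o.elim (w : ℤ) (val a))
        (fun o : Option (Tm κ) => o.elim (w' : ℤ) (val a')) ∧
        ((∀ i, e i ≠ 0 → w < (a i).len) ∨ ∀ c, Lev c a x.len →
          (∀ i, c i ≠ 0 → w < (a i).len) → ¬ (c = e ∨ w ≤ vv (c + e) a)) := by
      obtain ⟨w', hw'⟩ := h.extend none (w : ℤ) (by simp [val])
      have h0 : 0 ≤ w' := by
        have := hw'.le_iff (some none) none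
        simp only [Option.elim, val] at this
        omega
      obtain ⟨s', rfl⟩ := Int.eq_ofNat_of_zero_le h0
      exact ⟨s', hw', hor⟩
    have hlen : ∀ i, (w ≤ (a i).len ↔ w' ≤ (a' i).len) := by
      intro i
      have := hw'.le_iff none (some (some (.inl i)))
      simp only [Option.elim, val] at this
      omega
    have hlen' : ∀ i, (w < (a i).len ↔ w' < (a' i).len) := by
      intro i
      have := hw'.le_iff (some (some (.inl i))) none
      simp only [Option.elim, val] at this
      omega
    have hvv : ∀ c, (w ≤ vv c a ↔ w' ≤ vv c a') := by
      intro c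
      have := hw'.le_iff none (some (some (.inr c)))
      simp only [Option.elim, val] at this
      omega
    have hvv' : ∀ c, (w = vv c a ↔ w' = vv c a') := by
      intro c
      have := hw'.eq_iff none (some (some (.inr c)))
      simp only [Option.elim, val] at this
      omega
    set s' := (a' i0).len with hs'
    have hlev : ∀ c, Lev c a x.len ↔ Lev c a' s' := by
      intro c
      rw [← hi0]
      exact h.lev_iff c i0
    let x' : W := str (fun j => if j < w' then hs e a' j else hs e a' j + 1) s'
    have hx'len : x'.len = s' := rfl
    have he' : Lev e a' s' := (hlev e).1 hb.lev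
    have hw's : w' ≤ s' := by
      obtain ⟨i, hi, hi'⟩ := he'.exists
      have := (hlen i).1 (hb.le i hi)
      omega
    have hb' : Branch a' x' e w' := by
      refine ⟨he', fun i hi => (hlen i).1 (hb.le i hi), ?_, ?_⟩
      · intro j hj
        change (str _ s').bit j = _
        rw [str_bit (by omega), if_pos hj]
      · intro c hc hlt hor2
        have hc0 : Lev c a x.len := (hlev c).2 hc
        have hlt0 : ∀ i, c i ≠ 0 → w < (a i).len := fun i hi => (hlen' i).2 (hlt i hi)
        have hor0 : c = e ∨ w ≤ vv (c + e) a := by
          rcases hor2 with h1 | h1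
          · exact Or.inl h1
          · exact Or.inr ((hvv _).2 h1)
        rcases hor with hfree | hno
        swap
        · exact absurd hor0 (hno c hc0 hlt0)
        have hws : w' < s' := by
          obtain ⟨i, hi, hi'⟩ := hc.exists
          have := hlt i hi
          omega
        have hbit : x'.bit w' = hs e a' w' + 1 := by
          change (str _ s').bit w' = _
          rw [str_bit hws, if_neg (by omega)]
        rw [hbit]
        by_cases hce : c = e
        · subst hce
          intro h1
          have : ∀ b : ZMod 2, b + 1 ≠ b := by decide
          exact this _ h1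
        · have hle : w' ≤ vv (c + e) a' := by
            rcases hor2 with h1 | h1
            · exact absurd h1 hce
            · exact h1
          have hne' : c + e ≠ 0 := fun_add_ne_zero hce
          -- w is different from the landmark of c + e
          have hneq : w ≠ vv (c + e) a := by
            intro heq
            have hbal : Bal (c + e) a := hc0.add hb.lev
            have h2 : ¬ (w + 1 ≤ vv (c + e) a) := by omega
            rw [le_vv hne' hbal] at h2
            have h3 := (le_vv hne' hbal).1 (le_of_eq heq)
            have h4 : hs (c + e) a w ≠ 0 := by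
              intro h5
              apply h2
              refine ⟨hne', hbal, ?_, ?_⟩
              · intro i hi
                rcases eq_or_ne (c i) 0 with h0 | h0
                · have h6 : e i ≠ 0 := fun h1 => hi (by simp [h0, h1])
                  exact hfree i h6
                · exact hlt0 i h0
              · intro j hj
                rcases Nat.lt_succ_iff_lt_or_eq.1 hj with hj | rfl
                · exact h3.2.2.2 j hj
                · exact h5
            rw [hs_add] at h4
            have h5 := hb.ne c hc0 hlt0 hor0
            have h6 := hb.ne e hb.lev hfree (Or.inl rfl)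
            generalize hs c a w = p at h4 h5
            generalize hs e a w = q at h4 h6
            generalize x.bit w = r at h5 h6
            revert p q r
            decide
          have hneq' : w' ≠ vv (c + e) a' := fun h1 => hneq ((hvv' _).2 h1)
          have h7 := ((le_vv (u := w' + 1) hne' (hc.add he')).1 (by omega)).2.2.2 w' (by omega)
          rw [hs_add, zmod2_add_eq_zero] at h7
          rw [h7]
          intro h1
          have : ∀ b : ZMod 2, b + 1 ≠ b := by decide
          exact this _ h1
    refine ⟨x', hw'.least _ (val_ext_old a x i0 hi0 hb (fun c => Lev c a x.len) (fun _ => Iff.rfl))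
      (val_ext_old a' x' i0 rfl hb' (fun c => Lev c a x.len) (fun c => hlev c))⟩

end Pool.Agent.L5helper53.DF
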