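import Mathlib

/-!
Finite binary strings with the affine structure of each level: the comparison of tuples of strings
and the back-and-forth property.
-/

namespace Pool.Agent.L5helper53.DF

/-! ### Comparison of finite families of integers up to bounded distances -/

/-- The families `f`, `g` of integers look the same up to distance `d`. -/
def Sim {ι : Type*} (d : ℕ) (f g : ι → ℤ) : Prop :=
  ∀ (i j : ι) (z : ℤ), -(d : ℤ) ≤ z → z ≤ d → (f i - f j ≤ z ↔ g i - g j ≤ z)

theorem Sim.symm {ι : Type*} {d : ℕ} {f g : ι → ℤ} (h : Sim d f g) : Sim d g f :=
  fun i j z h1 h2 => (h i j z h1 h2).symm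

theorem Sim.mono {ι : Type*} {d e : ℕ} {f g : ι → ℤ} (h : Sim e f g) (hde : d ≤ e) :
    Sim d f g := fun i j z h1 h2 => h i j z (by omega) (by omega)

theorem Sim.comp {ι ι' : Type*} {d : ℕ} {f g : ι → ℤ} (h : Sim d f g) (e : ι' → ι) :
    Sim d (f ∘ e) (g ∘ e) := fun i j z h1 h2 => h (e i) (e j) z h1 h2

theorem Sim.le_iff {ι : Type*} {d : ℕ} {f g : ι → ℤ} (h : Sim d f g) (i j : ι) :
    f i ≤ f j ↔ g i ≤ g j := by
  have := h i j 0 (by omega) (by omega)
  omega

theorem Sim.eq_iff {ι : Type*} {d : ℕ} {f g : ι → ℤ} (h : Sim d f g) (i j : ι) :
    f i = f j ↔ g i = g j := by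
  have := h.le_iff i j
  have := h.le_iff j i
  omega

/-- Exact form: differences of absolute value at most `d` are equal. -/
theorem Sim.exact {ι : Type*} {d : ℕ} {f g : ι → ℤ} (h : Sim d f g) (i j : ι)
    (h1 : -(d : ℤ) ≤ f i - f j) (h2 : f i - f j ≤ d) : f i - f j = g i - g j := by
  have a1 := h i j (f i - f j) h1 h2
  have a2 := h j i (f j - f i) (by omega) (by omega)
  omega

theorem sim_of_exact {ι : Type*} {d : ℕ} {f g : ι → ℤ}
    (h : ∀ i j, f j ≤ f i → f i - f j ≤ d → f i - f j = g i - g j)
    (h' : ∀ i j, (d : ℤ) < f i - f j → (d : ℤ) < g i - g j) : Sim d f g := by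
  intro i j z h1 h2
  have a1 := h i j
  have a2 := h j i
  have a3 := h' i j
  have a4 := h' j i
  constructor
  · intro hz
    by_contra hc
    rcases le_total (f j) (f i) with hl | hl
    · have := a1 hl (by omega)
      omega
    · by_cases hd : f j - f i ≤ d
      · have := a2 hl hd
        omega
      · have := a4 (by omega)
        omega
  · intro hz
    by_contra hc
    rcases le_total (f j) (f i) with hl | hl
    · by_cases hd : f i - f j ≤ d
      · have := a1 hl hd
        omega
      · have := a3 (by omega)
        omega
    · by_cases hd : f j - f i ≤ d
      · have := a2 hl hd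
        omega
      · have := a4 (by omega)
        omega

theorem Sim.extend {ι : Type*} [Finite ι] {d : ℕ} {f g : ι → ℤ} (h : Sim (2 * d + 1) f g)
    (i0 : ι) (w : ℤ) (hw : f i0 ≤ w) :
    ∃ w' : ℤ, Sim d (fun o : Option ι => o.elim w f) (fun o : Option ι => o.elim w' g) := by
  classical
  obtain ⟨m, hm, hmax⟩ : ∃ m, f m ≤ w ∧ ∀ i, f i ≤ w → f i ≤ f m := by
    obtain ⟨m, hm, hmax⟩ := Set.Finite.exists_maximalFor f {i | f i ≤ w} (Set.toFinite _)
      ⟨i0, hw⟩
    refine ⟨m, hm, fun i hi => ?_⟩
    rcases le_total (f i) (f m) with h1 | h1
    · exact h1
    · exact hmax hi h1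
  -- the upper neighbour
  have hup : (∃ n, w ≤ f n ∧ ∀ i, w ≤ f i → f n ≤ f i) ∨ ∀ i, f i < w := by
    by_cases hne : ∃ n, w ≤ f n
    · left
      obtain ⟨n, hn, hmin⟩ := Set.Finite.exists_minimalFor f {i | w ≤ f i} (Set.toFinite _) hne
      refine ⟨n, hn, fun i hi => ?_⟩
      rcases le_total (f i) (f n) with h1 | h1
      · exact hmin hi h1
      · exact h1
    · right
      push Not at hne
      exact hne
  -- facts about differences
  have E : ∀ i j, -((2 * d + 1 : ℕ) : ℤ) ≤ f i - f j → f i - f j ≤ ((2 * d + 1 : ℕ) : ℤ) →
      f i - f j = g i - g j := fun i j => h.exact i j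
  have E' : ∀ i j, ((2 * d + 1 : ℕ) : ℤ) < f i - f j → ((2 * d + 1 : ℕ) : ℤ) < g i - g j := by
    intro i j hij
    have := h i j (2 * d + 1 : ℕ) (by omega) (by omega)
    omega
  by_cases hA : w - f m ≤ d
  · refine ⟨g m + (w - f m), sim_of_exact ?_ ?_⟩
    · rintro (_ | i) (_ | j) h1 h2
      · simp
      · simp only [Option.elim] at h1 h2 ⊢
        have := E m j
        have := hmax j h1
        push_cast at *
        omega
      · simp only [Option.elim] at h1 h2 ⊢
        have := E i m
        push_cast at *
        omega
      · simp only [Option.elim] at h1 h2 ⊢
        have := E i j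
        push_cast at *
        omega
    · rintro (_ | i) (_ | j) h1
      · simp at h1
        omega
      · simp only [Option.elim] at h1 ⊢
        have := E m j
        have := E' m j
        have := hmax j
        push_cast at *
        omega
      · simp only [Option.elim] at h1 ⊢
        have := E i m
        have := E' i m
        push_cast at *
        omega
      · simp only [Option.elim] at h1 ⊢
        have := E i j
        have := E' i j
        push_cast at *
        omega
  · rcases hup with ⟨n, hn, hmin⟩ | hup
    · by_cases hB : f n - w ≤ d
      · refine ⟨g n - (f n - w), sim_of_exact ?_ ?_⟩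
        · rintro (_ | i) (_ | j) h1 h2
          · simp
          · simp only [Option.elim] at h1 h2 ⊢
            have := E n j
            push_cast at *
            omega
          · simp only [Option.elim] at h1 h2 ⊢
            have := E i n
            have := hmin i
            push_cast at *
            omega
          · simp only [Option.elim] at h1 h2 ⊢
            have := E i j
            push_cast at *
            omega
        · rintro (_ | i) (_ | j) h1
          · simp at h1
            omega
          · simp only [Option.elim] at h1 ⊢
            have := E n j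
            have := E' n j
            push_cast at *
            omega
          · simp only [Option.elim] at h1 ⊢
            have := E i n
            have := E' i n
            have := hmin i
            push_cast at *
            omega
          · simp only [Option.elim] at h1 ⊢
            have := E i j
            have := E' i j
            push_cast at *
            omega
      · refine ⟨g m + d + 1, sim_of_exact ?_ ?_⟩
        · rintro (_ | i) (_ | j) h1 h2
          · simp
          · simp only [Option.elim] at h1 h2 ⊢
            have := hmax j
            push_cast at *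
            omega
          · simp only [Option.elim] at h1 h2 ⊢
            have := hmin i
            push_cast at *
            omega
          · simp only [Option.elim] at h1 h2 ⊢
            have := E i j
            push_cast at *
            omega
        · rintro (_ | i) (_ | j) h1
          · simp at h1
            omega
          · simp only [Option.elim] at h1 ⊢
            have := E m j
            have := E' m j
            have := hmax j
            push_cast at *
            omega
          · simp only [Option.elim] at h1 ⊢
            have := E i m
            have := E' i m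
            have := hmin i
            push_cast at *
            omega
          · simp only [Option.elim] at h1 ⊢
            have := E i j
            have := E' i j
            push_cast at *
            omega
    · refine ⟨g m + d + 1, sim_of_exact ?_ ?_⟩
      · rintro (_ | i) (_ | j) h1 h2
        · simp
        · simp only [Option.elim] at h1 h2 ⊢
          have := hmax j
          push_cast at *
          omega
        · simp only [Option.elim] at h1 h2 ⊢
          have := hup i
          push_cast at *
          omega
        · simp only [Option.elim] at h1 h2 ⊢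
          have := E i j
          push_cast at *
          omega
      · rintro (_ | i) (_ | j) h1
        · simp at h1
          omega
        · simp only [Option.elim] at h1 ⊢
          have := E m j
          have := E' m j
          have := hmax j
          push_cast at *
          omega
        · simp only [Option.elim] at h1 ⊢
          have := hup i
          omega
        · simp only [Option.elim] at h1 ⊢
          have := E i j
          have := E' i j
          push_cast at *
          omega

/-- Families of minima of similar families are similar. -/
theorem Sim.least {ι ι' : Type*} {d : ℕ} {f g : ι → ℤ} (h : Sim d f g) {F G : ι' → ℤ}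
    (S : ι' → Set ι) (hF : ∀ c, IsLeast (f '' S c) (F c)) (hG : ∀ c, IsLeast (g '' S c) (G c)) :
    Sim d F G := by
  have key : ∀ (f : ι → ℤ) (F : ι' → ℤ), (∀ c, IsLeast (f '' S c) (F c)) → ∀ c c' z,
      (F c - F c' ≤ z ↔ ∀ j ∈ S c', ∃ i ∈ S c, f i - f j ≤ z) := by
    intro f F hF c c' z
    obtain ⟨⟨i1, hi1, hi1'⟩, hl1⟩ := hF c
    obtain ⟨⟨j1, hj1, hj1'⟩, hl2⟩ := hF c'
    constructor
    · intro hz j hj
      have := hl2 ⟨j, hj, rfl⟩
      exact ⟨i1, hi1, by omega⟩
    · intro hz
      obtain ⟨i, hi, hi'⟩ := hz j1 hj1
      have := hl1 ⟨i, hi, rfl⟩
      omega
  intro c c' z h1 h2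
  rw [key f F hF, key g G hG]
  constructor
  · intro hz j hj
    obtain ⟨i, hi, hi'⟩ := hz j hj
    exact ⟨i, hi, (h i j z h1 h2).1 hi'⟩
  · intro hz j hj
    obtain ⟨i, hi, hi'⟩ := hz j hj
    exact ⟨i, hi, (h i j z h1 h2).2 hi'⟩

end Pool.Agent.L5helper53.DF
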