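import Pool.Agent.helper968_exist.Defs

/-!
Definitions used in the statement about non-forking formulas and definable types.

`SKF.Fml L n U` is the type of formulas `φ(x, c)` in `n` variables with a tuple `c` of parameters
from `U`; `SKF.Fml.Holds`, `SKF.Fml.Over`, `SKF.FinSat`, `SKF.IsTypeOver` and `SKF.IsMonster` are
defined in `Pool.Agent.helper968_kim.Defs`, and `EXA.Divides` and `EXA.Forks` in
`Pool.Agent.helper968_exist.Defs`.
-/

namespace Pool.Agent.L5helper53.DF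

open FirstOrder FirstOrder.Language SKF

variable {L : FirstOrder.Language.{0, 0}}

/-- `T` is dp-minimal: there are no formulas `φ(x, y)`, `ψ(x, z)` with a single variable `x` and
sequences `(a_i)`, `(c_j)` in a model of `T` such that for all `i`, `j` the set
`{φ(x, a_i)} ∪ {¬ φ(x, a_k) : k ≠ i} ∪ {ψ(x, c_j)} ∪ {¬ ψ(x, c_l) : l ≠ j}` is consistent. -/
def IsDpMinimal (T : L.Theory) : Prop :=
  ¬ ∃ (N : Type) (_ : L.Structure N) (_ : N ⊨ T) (m n : ℕ) (φ : L.Formula (Fin 1 ⊕ Fin m))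
    (ψ : L.Formula (Fin 1 ⊕ Fin n)) (a : ℕ → Fin m → N) (c : ℕ → Fin n → N), ∀ i j : ℕ,
    FinSat ({⟨m, φ, a i⟩} ∪ {θ | ∃ k, k ≠ i ∧ θ = ⟨m, φ.not, a k⟩} ∪ {⟨n, ψ, c j⟩} ∪
      {θ | ∃ l, l ≠ j ∧ θ = ⟨n, ψ.not, c l⟩} : Set (Fml L 1 N))

/-- The global type `p` is definable over `M`: for every formula `χ(x, y)` without parameters there
is a formula `d(y)` with parameters in `M` such that `χ(x, e) ∈ p` if and only if `d(e)` holds, for
all tuples `e` of `U`. -/
def IsDefinableOver {U : Type} [L.Structure U] {n : ℕ} (M : Set U) (p : Set (Fml L n U)) : Prop :=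
  ∀ (k : ℕ) (χ : L.Formula (Fin n ⊕ Fin k)), ∃ d : Fml L k U, d.Over M ∧
    ∀ e : Fin k → U, (⟨k, χ, e⟩ : Fml L n U) ∈ p ↔ d.Holds e

end Pool.Agent.L5helper53.DF
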