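import Pool.Agent.L5helper53.DF.Form

/-!
Dp-minimality of the structure of the finite binary strings (finite patterns).
-/

set_option linter.unusedSectionVars false

namespace Pool.Agent.L5helper53.DF

open FirstOrder FirstOrder.Language

/-! ### A combinatorial lemma -/

/-- Two sets are nested or disjoint. -/
def Nest {X : Type} (S S' : Set X) : Prop := S ⊆ S' ∨ S' ⊆ S ∨ ∀ x ∈ S, x ∉ S'

theorem rect (C : Type) [Finite C] : ∃ K : ℕ, ∀ col : Fin K → Fin K → C,
    ∃ i₀ i₁ j₀ j₁ : Fin K, i₀ ≠ i₁ ∧ j₀ ≠ j₁ ∧ col i₀ j₀ = col i₁ j₀ ∧ col i₀ j₀ = col i₀ j₁ ∧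
      col i₀ j₀ = col i₁ j₁ := by
  classical
  have := Fintype.ofFinite C
  let n := Fintype.card C + 1
  let m := Fintype.card (Fin n → C) + 1
  refine ⟨max n m, fun col => ?_⟩
  obtain ⟨j₀, j₁, hj, hcol⟩ := Fintype.exists_ne_map_eq_of_card_lt
    (fun (j : Fin (max n m)) (i : Fin n) => col (Fin.castLE (le_max_left _ _) i) j)
    (by rw [Fintype.card_fin]; omega)
  obtain ⟨i₀, i₁, hi, hcol'⟩ := Fintype.exists_ne_map_eq_of_card_lt
    (fun (i : Fin n) => col (Fin.castLE (le_max_left n m) i) j₀)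
    (by rw [Fintype.card_fin]; omega)
  refine ⟨Fin.castLE (le_max_left _ _) i₀, Fin.castLE (le_max_left _ _) i₁, j₀, j₁, ?_, hj,
    hcol', congrFun hcol i₀, hcol'.trans (congrFun hcol i₁)⟩
  intro h
  exact hi (Fin.castLE_injective _ h)

theorem no_pattern {X : Type} (T T' : Type) [Finite T] [Finite T'] : ∃ K : ℕ,
    ∀ (A A' : Fin K → Set X) (B : Fin K → T → Set X) (B' : Fin K → T' → Set X)
      (F : Fin K → Set (T → Prop)) (F' : Fin K → Set (T' → Prop)),
      (∀ i x, x ∈ A i ↔ (fun t => x ∈ B i t) ∈ F i) →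
      (∀ j x, x ∈ A' j ↔ (fun t => x ∈ B' j t) ∈ F' j) →
      (∀ i t j t', Nest (B i t) (B' j t')) →
      ∀ x : Fin K → Fin K → X, ¬ ∀ i j i', (x i j ∈ A i' ↔ i' = i) ∧ (x i j ∈ A' i' ↔ i' = j) := by
  obtain ⟨K, hK⟩ := rect ((Set (T → Prop)) × (Set (T' → Prop)) × (T → T' → Prop) ×
    (T → T' → Prop))
  refine ⟨K, fun A A' B B' F F' hA hA' hN x hx => ?_⟩
  obtain ⟨i₀, i₁, j₀, j₁, hi, hj, h1, h2, h3⟩ := hK (fun i j => (F i, F' j,
    fun t t' => B i t ⊆ B' j t', fun t t' => B' j t' ⊆ B i t))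
  simp only [Prod.mk.injEq] at h1 h2 h3
  obtain ⟨hF, -, h1a, h1b⟩ := h1
  obtain ⟨-, hF', h2a, h2b⟩ := h2
  obtain ⟨-, -, h3a, h3b⟩ := h3
  set y := x i₀ j₀ with hy
  have hya : y ∈ A i₀ := (hx i₀ j₀ i₀).1.2 rfl
  have hya' : y ∉ A i₁ := fun h => hi ((hx i₀ j₀ i₁).1.1 h).symm
  have hyb : y ∈ A' j₀ := (hx i₀ j₀ j₀).2.2 rfl
  have hyb' : y ∉ A' j₁ := fun h => hj ((hx i₀ j₀ j₁).2.1 h).symm
  obtain ⟨t, ht⟩ : ∃ t, ¬ (y ∈ B i₀ t ↔ y ∈ B i₁ t) := by
    by_contra hc
    push Not at hc
    apply hya'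
    rw [hA, ← hF, ← (show (fun t => y ∈ B i₀ t) = fun t => y ∈ B i₁ t from
      funext fun t => propext (hc t)), ← hA]
    exact hya
  obtain ⟨t', ht'⟩ : ∃ t, ¬ (y ∈ B' j₀ t ↔ y ∈ B' j₁ t) := by
    by_contra hc
    push Not at hc
    apply hyb'
    rw [hA', ← hF', ← (show (fun t => y ∈ B' j₀ t) = fun t => y ∈ B' j₁ t from
      funext fun t => propext (hc t)), ← hA']
    exact hyb
  have c1a := congrFun (congrFun h1a t) t'
  have c1b := congrFun (congrFun h1b t) t'
  have c2a := congrFun (congrFun h2a t) t'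
  have c2b := congrFun (congrFun h2b t) t'
  have c3a := congrFun (congrFun h3a t) t'
  have c3b := congrFun (congrFun h3b t) t'
  simp only [eq_iff_iff] at c1a c1b c2a c2b c3a c3b
  have n00 := hN i₀ t j₀ t'
  have n01 := hN i₀ t j₁ t'
  have n10 := hN i₁ t j₀ t'
  have n11 := hN i₁ t j₁ t'
  unfold Nest at n00 n01 n10 n11
  by_cases e1 : y ∈ B i₀ t <;> by_cases e2 : y ∈ B i₁ t <;> by_cases e3 : y ∈ B' j₀ t' <;>
    by_cases e4 : y ∈ B' j₁ t' <;> simp only [e1, e2, e3, e4, not_true, iff_true, iff_false,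
      iff_self, not_false_eq_true] at ht ht'
  · rcases n00 with h | h | h
    · exact e4 ((c2a.1 h) e1)
    · exact e2 ((c1b.1 h) e3)
    · exact h y e1 e3
  · rcases n01 with h | h | h
    · exact e3 ((c2a.2 h) e1)
    · exact e2 ((c3b.1 (c2b.2 h)) e4)
    · exact h y e1 e4
  · rcases n10 with h | h | h
    · exact e4 ((c3a.1 (c1a.2 h)) e2)
    · exact e1 ((c1b.2 h) e3)
    · exact h y e2 e3
  · rcases n11 with h | h | h
    · exact e3 ((c1a.1 (c3a.2 h)) e2)
    · exact e1 ((c2b.1 (c3b.2 h)) e4)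
    · exact h y e2 e4

/-! ### The tests -/

section

variable {κ : Type} [Fintype κ]

/-- The index set of the tests. -/
abbrev Tst (κ : Type) (d : ℕ) := (Tm κ × Fin (2 * d + 3)) ⊕ ((κ → ZMod 2) × Tm κ × Fin (2 * d + 3))

/-- The sets used for the tests. -/
def BB {d : ℕ} (a : κ → W) : Tst κ d → Set W
  | .inl t => {x | (x.len : ℤ) ≤ val a t.1 + ((t.2 : ℕ) : ℤ) - (d + 1)}
  | .inr t => {x | Lev t.1 a x.len ∧
      (∀ i, t.1 i ≠ 0 → val a t.2.1 + ((t.2.2 : ℕ) : ℤ) - (d + 1) ≤ (a i).len) ∧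
      ∀ j : ℕ, (j : ℤ) < val a t.2.1 + ((t.2.2 : ℕ) : ℤ) - (d + 1) → x.bit j = hs t.1 a j}

/-- The shape of the sets used for the tests. -/
def IsB (S : Set W) : Prop := S = ∅ ∨ (∃ γ : ℤ, S = {x | (x.len : ℤ) ≤ γ}) ∨
  ∃ (s : ℕ) (h : ℕ → ZMod 2) (u : ℤ), S = {x | x.len = s ∧ ∀ j : ℕ, (j : ℤ) < u → x.bit j = h j}

theorem isB_BB {d : ℕ} (a : κ → W) (t : Tst κ d) : IsB (BB a t) := by
  rcases t with t | t
  · refine Or.inr (Or.inl ⟨val a t.1 + ((t.2 : ℕ) : ℤ) - (d + 1), ?_⟩)
    rfl
  · by_cases hne : (BB a (.inr t : Tst κ d)).Nonempty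
    · obtain ⟨x0, hx0⟩ := hne
      refine Or.inr (Or.inr ⟨x0.len, hs t.1 a, val a t.2.1 + ((t.2.2 : ℕ) : ℤ) - (d + 1), ?_⟩)
      obtain ⟨h1, h2, h3⟩ := hx0
      ext x
      constructor
      · rintro ⟨g1, g2, g3⟩
        refine ⟨?_, g3⟩
        have e1 := g1 x0.len
        have e2 := h1 x0.len
        rw [e2, if_pos rfl] at e1
        by_contra hc
        rw [if_neg hc] at e1
        exact absurd e1 (by decide)
      · rintro ⟨g1, g3⟩
        exact ⟨by rw [g1]; exact h1, h2, g3⟩
    · exact Or.inl (Set.not_nonempty_iff_eq_empty.1 hne)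

theorem Nest.symm {X : Type} {S S' : Set X} (h : Nest S S') : Nest S' S := by
  rcases h with h | h | h
  · exact Or.inr (Or.inl h)
  · exact Or.inl h
  · exact Or.inr (Or.inr fun x hx hx' => h x hx' hx)

theorem IsB.nest {S S' : Set W} (h : IsB S) (h' : IsB S') : Nest S S' := by
  have key : ∀ (s : ℕ) (h : ℕ → ZMod 2) (u : ℤ) (h' : ℕ → ZMod 2) (u' : ℤ), u ≤ u' →
      Nest {x : W | x.len = s ∧ ∀ j : ℕ, (j : ℤ) < u → x.bit j = h j}
        {x : W | x.len = s ∧ ∀ j : ℕ, (j : ℤ) < u' → x.bit j = h' j} := by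
    intro s h u h' u' hu
    by_cases hx : ∃ x : W, (x.len = s ∧ ∀ j : ℕ, (j : ℤ) < u → x.bit j = h j) ∧
        (x.len = s ∧ ∀ j : ℕ, (j : ℤ) < u' → x.bit j = h' j)
    · obtain ⟨x, h1, h2⟩ := hx
      refine Or.inr (Or.inl ?_)
      rintro y ⟨g1, g2⟩
      refine ⟨g1, fun j hj => ?_⟩
      rw [g2 j (by omega), ← h2.2 j (by omega), h1.2 j hj]
    · exact Or.inr (Or.inr fun x h1 h2 => hx ⟨x, h1, h2⟩)
  have key2 : ∀ (γ : ℤ) (s : ℕ) (h : ℕ → ZMod 2) (u : ℤ), Nest {x : W | (x.len : ℤ) ≤ γ}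
      {x : W | x.len = s ∧ ∀ j : ℕ, (j : ℤ) < u → x.bit j = h j} := by
    intro γ s h u
    by_cases hs : (s : ℤ) ≤ γ
    · refine Or.inr (Or.inl ?_)
      rintro x ⟨h1, _⟩
      change (x.len : ℤ) ≤ γ
      rw [h1]
      exact hs
    · refine Or.inr (Or.inr ?_)
      rintro x h1 ⟨h2, _⟩
      apply hs
      rw [← h2]
      exact h1
  rcases h with rfl | ⟨γ, rfl⟩ | ⟨s, h, u, rfl⟩
  · exact Or.inl (Set.empty_subset _)
  · rcases h' with rfl | ⟨γ', rfl⟩ | ⟨s', h', u', rfl⟩
    · exact Or.inr (Or.inl (Set.empty_subset _))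
    · rcases le_total γ γ' with hl | hl
      · exact Or.inl fun x hx => le_trans hx hl
      · exact Or.inr (Or.inl fun x hx => le_trans hx hl)
    · exact key2 _ _ _ _
  · rcases h' with rfl | ⟨γ', rfl⟩ | ⟨s', h', u', rfl⟩
    · exact Or.inr (Or.inl (Set.empty_subset _))
    · exact (key2 _ _ _ _).symm
    · by_cases hss : s = s'
      · subst hss
        rcases le_total u u' with hl | hl
        · exact key _ _ _ _ _ hl
        · exact (key _ _ _ _ _ hl).symm
      · refine Or.inr (Or.inr ?_)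
        rintro x ⟨h1, _⟩ ⟨h2, _⟩
        exact hss (h1.symm.trans h2)

/-- Strings which satisfy the same tests look the same over `a`. -/
theorem sep {d : ℕ} (a : κ → W) (x x' : W)
    (h : ∀ t : Tst κ d, x ∈ BB a t ↔ x' ∈ BB a t) :
    Sim d (val (ext a x)) (val (ext a x')) := by
  classical
  -- the tests for the length
  have F1 : ∀ (τ : Tm κ) (z : ℤ), -(d + 1 : ℤ) ≤ z → z ≤ d + 1 →
      ((x.len : ℤ) ≤ val a τ + z ↔ (x'.len : ℤ) ≤ val a τ + z) := by
    intro τ z h1 h2
    obtain ⟨n, hn⟩ := Int.eq_ofNat_of_zero_le (show 0 ≤ z + (d + 1) by omega)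
    have := h (.inl (τ, ⟨n, by omega⟩))
    simp only [BB, Set.mem_ofPred_eq] at this
    rw [show val a τ + (n : ℤ) - (d + 1) = val a τ + z by omega] at this
    exact this
  have F0 : ∀ (c : κ → ZMod 2) (τ : Tm κ) (z : ℤ), -(d + 1 : ℤ) ≤ z → z ≤ d + 1 →
      ((Lev c a x.len ∧ (∀ i, c i ≠ 0 → val a τ + z ≤ (a i).len) ∧
      ∀ j : ℕ, (j : ℤ) < val a τ + z → x.bit j = hs c a j) ↔
      (Lev c a x'.len ∧ (∀ i, c i ≠ 0 → val a τ + z ≤ (a i).len) ∧
      ∀ j : ℕ, (j : ℤ) < val a τ + z → x'.bit j = hs c a j)) := by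
    intro c τ z h1 h2
    obtain ⟨n, hn⟩ := Int.eq_ofNat_of_zero_le (show 0 ≤ z + (d + 1) by omega)
    have := h (.inr (c, τ, ⟨n, by omega⟩))
    simp only [BB, Set.mem_ofPred_eq] at this
    rw [show val a τ + (n : ℤ) - (d + 1) = val a τ + z by omega] at this
    exact this
  have F2 : ∀ c : κ → ZMod 2, Lev c a x.len ↔ Lev c a x'.len := by
    intro c
    have := F0 c none 0 (by omega) (by omega)
    simp only [val, add_zero] at this
    constructor
    · intro hc
      exact (this.1 ⟨hc, fun i _ => by omega, fun j hj => by omega⟩).1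
    · intro hc
      exact (this.2 ⟨hc, fun i _ => by omega, fun j hj => by omega⟩).1
  -- values of the new landmarks
  have V : ∀ (y : W) (c : κ → ZMod 2), Lev c a y.len → ∀ u : ℤ,
      (u ≤ (vv (one' c) (ext a y) : ℤ) ↔ (∀ i, c i ≠ 0 → u ≤ (a i).len) ∧
        ∀ j : ℕ, (j : ℤ) < u → y.bit j = hs c a j) := by
    intro y c hc u
    by_cases hu : u ≤ 0
    · constructor
      · intro _
        exact ⟨fun i _ => by omega, fun j hj => by omega⟩
      · intro _
        omega
    · obtain ⟨n, rfl⟩ := Int.eq_ofNat_of_zero_le (show 0 ≤ u by omega)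
      have h1 := le_vv (u := n) (one'_ne_zero c) ((bal_ext_one' c a y).2 hc)
      rw [cond_ext_one'] at h1
      simp only [hc, true_and] at h1
      constructor
      · intro h2
        have h3 := h1.1 (by exact_mod_cast h2)
        exact ⟨fun i hi => by exact_mod_cast h3.1 i hi, fun j hj => h3.2 j (by exact_mod_cast hj)⟩
      · rintro ⟨h2, h3⟩
        exact_mod_cast h1.2 ⟨fun i hi => by exact_mod_cast h2 i hi,
          fun j hj => h3 j (by exact_mod_cast hj)⟩
  have F3 : ∀ c : κ → ZMod 2, Lev c a x.len → ∀ (τ : Tm κ) (z : ℤ), -(d + 1 : ℤ) ≤ z →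
      z ≤ d + 1 → (val a τ + z ≤ (vv (one' c) (ext a x) : ℤ) ↔
        val a τ + z ≤ (vv (one' c) (ext a x') : ℤ)) := by
    intro c hc τ z h1 h2
    have h3 := F0 c τ z h1 h2
    rw [V x c hc, V x' c ((F2 c).1 hc)]
    simp only [hc, (F2 c).1 hc, true_and] at h3
    exact h3
  -- pinned landmarks
  have hlenpin : ∀ c, Lev c a x.len → ∃ τ : Tm κ, (x.len : ℤ) = val a τ ∧ (x'.len : ℤ) = val a τ := by
    intro c hc
    obtain ⟨i, _, hi⟩ := hc.exists
    refine ⟨some (.inl i), by simp only [val]; omega, ?_⟩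
    have g1 := F1 (some (.inl i)) 0 (by omega) (by omega)
    have g2 := F1 (some (.inl i)) (-1) (by omega) (by omega)
    simp only [val] at g1 g2 ⊢
    omega
  have hlt : ∀ (y : W) (c c' : κ → ZMod 2), Lev c a y.len → Lev c' a y.len →
      vv (one' c) (ext a y) < vv (one' c') (ext a y) →
      ∃ τ : Tm κ, (vv (one' c) (ext a y) : ℤ) = val a τ := by
    intro y c c' hc hc' hlt
    by_contra hno
    push Not at hno
    have hcc : c ≠ c' := by
      rintro rfl
      omega
    have hne := fun_add_ne_zero hcc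
    have hb := hc.add hc'
    have W1 := (V y c hc (vv (one' c) (ext a y))).1 le_rfl
    have W2 := (V y c' hc' (vv (one' c') (ext a y))).1 le_rfl
    have W3 : ¬ ((vv (one' c) (ext a y) : ℤ) + 1 ≤ (vv (one' c) (ext a y) : ℤ)) := by omega
    rw [V y c hc] at W3
    set v := vv (one' c) (ext a y) with hv
    have hlen : ∀ i, c i ≠ 0 → v < (a i).len := by
      intro i hi
      have g1 := W1.1 i hi
      have g2 := hno (some (.inl i))
      simp only [val] at g2
      omega
    have hbit : y.bit v ≠ hs c a v := by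
      intro hb
      apply W3
      refine ⟨fun i hi => by have := hlen i hi; omega, fun j hj => ?_⟩
      rcases Nat.lt_succ_iff_lt_or_eq.1 (show j < v + 1 by omega) with hj | rfl
      · exact W1.2 j (by omega)
      · exact hb
    have hvv : vv (c + c') a = v := by
      apply le_antisymm
      · by_contra hcon
        have g1 := ((le_vv (u := v + 1) hne hb).1 (by omega)).2.2.2 v (by omega)
        rw [hs_add, zmod2_add_eq_zero] at g1
        apply hbit
        rw [g1]
        exact W2.2 v (by omega)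
      · rw [le_vv hne hb]
        refine ⟨hne, hb, fun i hi => ?_, fun j hj => ?_⟩
        · rcases eq_or_ne (c i) 0 with h0 | h0
          · have h6 : c' i ≠ 0 := fun h1 => hi (by simp [h0, h1])
            have := W2.1 i h6
            omega
          · exact (hlen i h0).le
        · rw [hs_add, ← W1.2 j (by omega), ← W2.2 j (by omega), zmod2_add_self]
    exact hno (some (.inr (c + c'))) (by simp only [val]; omega)
  have hpin : ∀ (c c' : κ → ZMod 2), Lev c a x.len → Lev c' a x.len →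
      (vv (one' c) (ext a x) < vv (one' c') (ext a x) ∨
        vv (one' c) (ext a x') < vv (one' c') (ext a x')) →
      ∃ τ : Tm κ, (vv (one' c) (ext a x) : ℤ) = val a τ ∧
        (vv (one' c) (ext a x') : ℤ) = val a τ := by
    intro c c' hc hc' hor
    rcases hor with hor | hor
    · obtain ⟨τ, hτ⟩ := hlt x c c' hc hc' hor
      refine ⟨τ, hτ, ?_⟩
      have g1 := F3 c hc τ 0 (by omega) (by omega)
      have g2 := F3 c hc τ 1 (by omega) (by omega)
      omega
    · obtain ⟨τ, hτ⟩ := hlt x' c c' ((F2 c).1 hc) ((F2 c').1 hc') hor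
      refine ⟨τ, ?_, hτ⟩
      have g1 := F3 c hc τ 0 (by omega) (by omega)
      have g2 := F3 c hc τ 1 (by omega) (by omega)
      omega
  -- the classification of the landmarks of the extended tuple
  have hcl : ∀ t : Tm (Option κ), (∃ τ : Tm κ, val (ext a x) t = val a τ ∧
      val (ext a x') t = val a τ) ∨ t = some (.inl none) ∨
      ∃ c : κ → ZMod 2, Lev c a x.len ∧ t = some (.inr (one' c)) := by
    intro t
    match t with
    | none => exact Or.inl ⟨none, rfl, rfl⟩
    | some (.inl none) => exact Or.inr (Or.inl rfl)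
    | some (.inl (some i)) => exact Or.inl ⟨some (.inl i), rfl, rfl⟩
    | some (.inr c) =>
      by_cases hc : c none = 0
      · exact Or.inl ⟨some (.inr fun i => c (some i)), by simp only [val, vv_ext_zero hc],
          by simp only [val, vv_ext_zero hc]⟩
      · by_cases hl : Lev (fun i => c (some i)) a x.len
        · exact Or.inr (Or.inr ⟨_, hl, by rw [← eq_one' hc]⟩)
        · refine Or.inl ⟨none, ?_, ?_⟩
          · rw [eq_one' hc]
            simp only [val]
            rw [vv_of_not_bal (by rw [bal_ext_one']; exact hl)]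
            rfl
          · rw [eq_one' hc]
            simp only [val]
            rw [vv_of_not_bal (by rw [bal_ext_one', ← F2]; exact hl)]
            rfl
  -- comparison with old landmarks
  have hT : ∀ (t : Tm (Option κ)) (τ : Tm κ) (z : ℤ), -(d : ℤ) ≤ z → z ≤ d →
      ((val (ext a x) t - val a τ ≤ z ↔ val (ext a x') t - val a τ ≤ z) ∧
        (val a τ - val (ext a x) t ≤ z ↔ val a τ - val (ext a x') t ≤ z)) := by
    intro t τ z h1 h2
    rcases hcl t with ⟨τ', e1, e2⟩ | rfl | ⟨c, hc, rfl⟩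
    · rw [e1, e2]
      exact ⟨Iff.rfl, Iff.rfl⟩
    · have g1 := F1 τ z (by omega) (by omega)
      have g2 := F1 τ (-z - 1) (by omega) (by omega)
      rw [show val (ext a x) (some (.inl none)) = (x.len : ℤ) from rfl,
        show val (ext a x') (some (.inl none)) = (x'.len : ℤ) from rfl]
      constructor
      · constructor <;> intro _ <;> omega
      · constructor <;> intro _ <;> omega
    · have g1 := F3 c hc τ (z + 1) (by omega) (by omega)
      have g2 := F3 c hc τ (-z) (by omega) (by omega)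
      rw [show val (ext a x) (some (.inr (one' c))) = (vv (one' c) (ext a x) : ℤ) from rfl,
        show val (ext a x') (some (.inr (one' c))) = (vv (one' c) (ext a x') : ℤ) from rfl]
      constructor
      · constructor <;> intro _ <;> omega
      · constructor <;> intro _ <;> omega
  intro t1 t2 z h1 h2
  rcases hcl t2 with ⟨τ', e1, e2⟩ | rfl | ⟨c', hc', rfl⟩
  · rw [e1, e2]
    exact (hT t1 τ' z h1 h2).1
  · rcases hcl t1 with ⟨τ', e1, e2⟩ | rfl | ⟨c, hc, rfl⟩
    · rw [e1, e2]
      exact (hT _ τ' z h1 h2).2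
    · simp
    · obtain ⟨τ, e1, e2⟩ := hlenpin c hc
      have := (hT (some (.inr (one' c))) τ z h1 h2).1
      rw [← e1] at this
      rw [show val (ext a x) (some (.inl none)) = (x.len : ℤ) from rfl,
        show val (ext a x') (some (.inl none)) = (x'.len : ℤ) from rfl, e2, ← e1]
      exact this
  · rcases hcl t1 with ⟨τ', e1, e2⟩ | rfl | ⟨c, hc, rfl⟩
    · rw [e1, e2]
      exact (hT _ τ' z h1 h2).2
    · obtain ⟨τ, e1, e2⟩ := hlenpin c' hc'
      have := (hT (some (.inr (one' c'))) τ z h1 h2).2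
      rw [← e1] at this
      rw [show val (ext a x) (some (.inl none)) = (x.len : ℤ) from rfl,
        show val (ext a x') (some (.inl none)) = (x'.len : ℤ) from rfl, e2, ← e1]
      exact this
    · by_cases he : vv (one' c) (ext a x) = vv (one' c') (ext a x) ∧
        vv (one' c) (ext a x') = vv (one' c') (ext a x')
      · simp only [val, he.1, he.2]
        simp
      · by_cases hlt1 : vv (one' c) (ext a x) < vv (one' c') (ext a x) ∨
          vv (one' c) (ext a x') < vv (one' c') (ext a x')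
        · obtain ⟨τ, e1, e2⟩ := hpin c c' hc hc' hlt1
          have := (hT (some (.inr (one' c'))) τ z h1 h2).2
          rw [show val (ext a x) (some (.inr (one' c))) = val a τ from e1,
            show val (ext a x') (some (.inr (one' c))) = val a τ from e2]
          exact this
        · obtain ⟨τ, e1, e2⟩ := hpin c' c hc' hc (by omega)
          have := (hT (some (.inr (one' c))) τ z h1 h2).1
          rw [show val (ext a x) (some (.inr (one' c'))) = val a τ from e1,
            show val (ext a x') (some (.inr (one' c'))) = val a τ from e2]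
          exact this

end

/-- A formula in one variable only depends on finitely many tests. -/
theorem formula_tests {k : ℕ} (φ : LW.Formula (Fin 1 ⊕ Fin k)) : ∃ d : ℕ,
    ∀ (a : Fin k → W) (x x' : W), (∀ t : Tst (Fin k) d, x ∈ BB a t ↔ x' ∈ BB a t) →
      (φ.Realize (Sum.elim (fun _ => x) a) ↔ φ.Realize (Sum.elim (fun _ => x') a)) := by
  obtain ⟨d, hd⟩ := formula_sim' φ
  refine ⟨d, fun a x x' h => hd _ _ ?_⟩
  have h1 := (sep a x x' h).relabel (Sum.elim (fun _ => none) some : Fin 1 ⊕ Fin k → Option (Fin k))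
  have h2 : ∀ x : W, ext a x ∘ (Sum.elim (fun _ => none) some : Fin 1 ⊕ Fin k → Option (Fin k)) =
      Sum.elim (fun _ => x) a := by
    intro x
    funext i
    rcases i with i | i <;> rfl
  rwa [h2, h2] at h1

/-- **Dp-minimality**: there are no large finite ict-patterns of depth two in the structure of the
finite binary strings. -/
theorem dp_finite {k l : ℕ} (φ : LW.Formula (Fin 1 ⊕ Fin k)) (ψ : LW.Formula (Fin 1 ⊕ Fin l)) :
    ∃ K : ℕ, ∀ (a : Fin K → Fin k → W) (c : Fin K → Fin l → W) (x : Fin K → Fin K → Fin 1 → W),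
      ¬ ∀ i j i', (φ.Realize (Sum.elim (x i j) (a i')) ↔ i' = i) ∧
        (ψ.Realize (Sum.elim (x i j) (c i')) ↔ i' = j) := by
  obtain ⟨d, hd⟩ := formula_tests φ
  obtain ⟨d', hd'⟩ := formula_tests ψ
  obtain ⟨K, hK⟩ := no_pattern (X := W) (Tst (Fin k) d) (Tst (Fin l) d')
  refine ⟨K, fun a c x hx => ?_⟩
  have hc : ∀ y : Fin 1 → W, y = fun _ => y 0 := by
    intro y
    funext i
    rw [Subsingleton.elim i 0]
  refine hK (fun i => {y | φ.Realize (Sum.elim (fun _ => y) (a i))})
    (fun i => {y | ψ.Realize (Sum.elim (fun _ => y) (c i))})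
    (fun i t => BB (a i) t) (fun i t => BB (c i) t)
    (fun i => {v | ∃ y, φ.Realize (Sum.elim (fun _ => y) (a i)) ∧ v = fun t => y ∈ BB (a i) t})
    (fun i => {v | ∃ y, ψ.Realize (Sum.elim (fun _ => y) (c i)) ∧ v = fun t => y ∈ BB (c i) t})
    ?_ ?_ ?_ (fun i j => x i j 0) ?_
  · intro i y
    constructor
    · intro hy
      exact ⟨y, hy, rfl⟩
    · rintro ⟨y', hy', heq⟩
      exact (hd (a i) y y' fun t => iff_of_eq (congrFun heq t)).2 hy'
  · intro i y
    constructor
    · intro hy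
      exact ⟨y, hy, rfl⟩
    · rintro ⟨y', hy', heq⟩
      exact (hd' (c i) y y' fun t => iff_of_eq (congrFun heq t)).2 hy'
  · intro i t j t'
    exact (isB_BB _ _).nest (isB_BB _ _)
  · intro i j i'
    have := hx i j i'
    rw [hc (x i j)] at this
    exact this

end Pool.Agent.L5helper53.DF
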