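import Pool.Agent.L5helper53.DF.NonDef
import Pool.Agent.helper968_kim.Sat

/-!
The main theorem.
-/

set_option linter.unusedSectionVars false

namespace Pool.Agent.L5helper53.DF

open FirstOrder FirstOrder.Language SKF EXA Filter H968 Cardinal

/-! ### Transfer -/

theorem transfer {L : FirstOrder.Language.{0, 0}} {M N : Type} [L.Structure M] [L.Structure N]
    [Nonempty M] [hN : N ⊨ L.completeTheory M] {α : Type} (φ : L.Formula α)
    (h : ∀ v : α → M, φ.Realize v) (v : α → N) : φ.Realize v := by
  classical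
  by_contra hv
  have h1 : (φ.not.exClosure).Realize N := by
    rw [Formula.realize_exClosure]
    refine ⟨fun a => v a, ?_⟩
    rw [Formula.Realize, BoundedFormula.realize_restrictFreeVar (v' := v) (by simp)]
    exact hv
  have h2 : M ⊨ φ.not.exClosure := (realize_iff_of_model_completeTheory M N _).1 h1
  rw [Sentence.Realize] at h2
  have h3 := (Formula.realize_exClosure (M := M) φ.not).1 h2
  obtain ⟨w, hw⟩ := h3
  let v' : α → M := fun a => if h : a ∈ φ.not.freeVarFinset then w ⟨a, h⟩ else Classical.arbitrary M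
  rw [Formula.Realize, BoundedFormula.realize_restrictFreeVar (v' := v')
    (by intro a; simp only [v', dif_pos a.2]; rfl)] at hw
  exact hw (h v')

open Classical in
/-- The formula `φ` or its negation. -/
noncomputable def lit {L : FirstOrder.Language.{0, 0}} {α : Type} (t : Prop) (φ : L.Formula α) :
    L.Formula α := if t then φ else φ.not

theorem realize_lit {L : FirstOrder.Language.{0, 0}} {α : Type} {M : Type} [L.Structure M]
    (t : Prop) (φ : L.Formula α) (v : α → M) : (lit t φ).Realize v ↔ (φ.Realize v ↔ t) := by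
  by_cases h : t <;> simp [lit, h]

instance : Nonempty W := ⟨str (fun _ => 0) 0⟩

/-- `T` is dp-minimal. -/
theorem dpMinimal : IsDpMinimal (LW.completeTheory W) := by
  classical
  rintro ⟨N, _, hN, m, n, φ, ψ, a, c, hac⟩
  obtain ⟨K, hK⟩ := dp_finite φ ψ
  let V := (Fin K × Fin m) ⊕ ((Fin K × Fin n) ⊕ (Fin K × Fin K × Fin 1))
  let Θ : LW.Formula V := Formula.iInf fun q : Fin K × Fin K × Fin K =>
    lit (q.2.2 = q.1) (φ.relabel (Sum.elim (fun z => Sum.inr (Sum.inr (q.1, q.2.1, z)))
      fun y => Sum.inl (q.2.2, y))) ⊓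
    lit (q.2.2 = q.2.1) (ψ.relabel (Sum.elim (fun z => Sum.inr (Sum.inr (q.1, q.2.1, z)))
      fun y => Sum.inr (Sum.inl (q.2.2, y))))
  have hΘ : ∀ (X : Type) [LW.Structure X] (v : V → X), Θ.Realize v ↔ ∀ i j i' : Fin K,
      (φ.Realize (Sum.elim (fun z => v (Sum.inr (Sum.inr (i, j, z))))
        fun y => v (Sum.inl (i', y))) ↔ i' = i) ∧
      (ψ.Realize (Sum.elim (fun z => v (Sum.inr (Sum.inr (i, j, z))))
        fun y => v (Sum.inr (Sum.inl (i', y)))) ↔ i' = j) := by
    intro X _ v
    simp only [Θ, Formula.realize_iInf, Formula.realize_inf, realize_lit, Formula.realize_relabel,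
      Prod.forall]
    apply forall_congr'
    intro i
    apply forall_congr'
    intro j
    apply forall_congr'
    intro i'
    have e1 : v ∘ (Sum.elim (fun z => Sum.inr (Sum.inr (i, j, z))) fun y => Sum.inl (i', y)) =
        Sum.elim (fun z => v (Sum.inr (Sum.inr (i, j, z)))) fun y => v (Sum.inl (i', y)) := by
      funext z
      rcases z with z | z <;> rfl
    have e2 : v ∘ (Sum.elim (fun z => Sum.inr (Sum.inr (i, j, z)))
        fun y => Sum.inr (Sum.inl (i', y))) =
        Sum.elim (fun z => v (Sum.inr (Sum.inr (i, j, z))))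
          fun y => v (Sum.inr (Sum.inl (i', y))) := by
      funext z
      rcases z with z | z <;> rfl
    rw [e1, e2]
  have hx : ∀ i j : Fin K, ∃ x : Fin 1 → N, ∀ i' : Fin K,
      (φ.Realize (Sum.elim x (a i')) ↔ i' = i) ∧ (ψ.Realize (Sum.elim x (c i')) ↔ i' = j) := by
    intro i j
    let s : Set (Fml LW 1 N) := Set.range (fun i' : Fin K =>
      (⟨m, if i' = i then φ else φ.not, a i'⟩ : Fml LW 1 N)) ∪ Set.range (fun i' : Fin K =>
      (⟨n, if i' = j then ψ else ψ.not, c i'⟩ : Fml LW 1 N))
    obtain ⟨x, hx⟩ := hac i j s ((Set.finite_range _).union (Set.finite_range _)) (by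
      rintro θ (⟨i', rfl⟩ | ⟨i', rfl⟩)
      · by_cases h : i' = i
        · subst h
          simp
        · left; left; right
          refine ⟨i', fun h' => h (Fin.ext h'), ?_⟩
          simp [h]
      · by_cases h : i' = j
        · subst h
          simp
        · right
          refine ⟨i', fun h' => h (Fin.ext h'), ?_⟩
          simp [h])
    refine ⟨x, fun i' => ⟨?_, ?_⟩⟩
    · have h1 := hx _ (Or.inl ⟨i', rfl⟩)
      unfold Fml.Holds at h1
      by_cases h : i' = i
      · simp only [h, if_true] at h1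
        simp only [h, iff_true]
        exact h1
      · simp only [h, if_false, Formula.realize_not] at h1
        simp only [h, iff_false]
        exact h1
    · have h1 := hx _ (Or.inr ⟨i', rfl⟩)
      unfold Fml.Holds at h1
      by_cases h : i' = j
      · simp only [h, if_true] at h1
        simp only [h, iff_true]
        exact h1
      · simp only [h, if_false, Formula.realize_not] at h1
        simp only [h, iff_false]
        exact h1
  choose x hx using hx
  have h1 := transfer (M := W) (N := N) Θ.not (fun v => by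
    rw [Formula.realize_not, hΘ]
    intro h
    exact hK (fun i y => v (Sum.inl (i, y))) (fun i y => v (Sum.inr (Sum.inl (i, y))))
      (fun i j z => v (Sum.inr (Sum.inr (i, j, z)))) h)
    (Sum.elim (fun q => a q.1 q.2) (Sum.elim (fun q => c q.1 q.2) fun q => x q.1 q.2.1 q.2.2))
  rw [Formula.realize_not, hΘ] at h1
  apply h1
  intro i j i'
  exact hx i j i'

/-! ### Countability -/

instance : Countable W := by
  have : Function.Injective (fun x : W => (⟨x.len, fun j => x.bit j⟩ : Σ n : ℕ, Fin n → ZMod 2)) := by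
    rintro x y h
    obtain ⟨l, b, hb⟩ := x
    obtain ⟨l', b', hb'⟩ := y
    simp only [Sigma.mk.injEq] at h
    obtain ⟨rfl, h⟩ := h
    refine W.ext' rfl fun j hj => ?_
    exact congrFun (eq_of_heq h) ⟨j, hj⟩
  exact this.countable

instance (m : ℕ) : Countable (LW.Relations m) := by
  change Countable (Option (Fin m ⊕ (Fin m → ZMod 2)) × Option (Fin m ⊕ (Fin m → ZMod 2)) × ℤ)
  infer_instance

instance : Countable LW.Symbols := 
  inferInstanceAs (Countable ((Σ l, LW.Functions l) ⊕ (Σ l, LW.Relations l)))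

theorem card_LW : LW.card < ℵ₁ := by
  have : LW.card ≤ ℵ₀ := mk_le_aleph0
  exact lt_of_le_of_lt this aleph0_lt_aleph_one

/-- The diagonal embedding. -/
noncomputable def diag : W ↪ₑ[LW] Ult W where
  toFun := fun x => cls fun _ => x
  map_formula' := by
    intro n φ x
    have h1 := FirstOrder.Language.Ultraproduct.realize_formula_cast (u := hyp)
      (M := fun _ : ℕ => W) φ (fun t _ => x t)
    refine h1.trans ?_
    simp

theorem monster : IsMonster (LW.completeTheory W) ℵ₁ (Ult W) := by
  refine ⟨?_, aleph0_lt_aleph_one, card_LW, ult_saturated LW W⟩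
  rw [Theory.model_iff]
  intro φ hφ
  rw [Ultraproduct.sentence_realize]
  exact Eventually.of_forall fun _ => hφ

theorem exists_long {κ : Cardinal.{0}} {U : Type} [LW.Structure U]
    (hU : IsMonster (LW.completeTheory W) κ U) (i : W ↪ₑ[LW] U) : ∃ b : Fin 1 → U, Long i b := by
  classical
  let θ : LW.Formula (Fin 1 ⊕ Fin 1) :=
    cmp (some (.inl (.inr 0))) (some (.inl (.inl 0))) (-1)
  obtain ⟨b, hb⟩ := hU.saturated (Set.range i) (by
      have : Countable (Set.range i) := (Set.countable_range i).to_subtype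
      exact lt_of_le_of_lt mk_le_aleph0 hU.uncountable) 1
    (Set.range fun w : W => (⟨1, θ, i ∘ ![w]⟩ : Fml LW 1 U)) (by
      rintro _ ⟨w, rfl⟩ t
      exact ⟨_, rfl⟩) (by
      intro s hs hsub
      have hf : ∀ θ' : s, ∃ w : W, (⟨1, θ, i ∘ ![w]⟩ : Fml LW 1 U) = θ' := fun θ' => hsub θ'.2
      choose f hf using hf
      have := hs.fintype
      obtain ⟨N, hN⟩ : ∃ N : ℕ, ∀ t : s, (f t).len ≤ N :=
        ⟨Finset.univ.sup fun t => (f t).len, fun t => Finset.le_sup (f := fun t => (f t).len)
          (Finset.mem_univ t)⟩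
      refine ⟨i ∘ ![str (fun _ => 0) (N + 1)], ?_⟩
      intro θ' hθ'
      rw [← show (⟨1, θ, i ∘ ![f ⟨θ', hθ'⟩]⟩ : Fml LW 1 U) = θ' from hf ⟨θ', hθ'⟩]
      unfold Fml.Holds
      simp only
      rw [← Sum.comp_elim, i.map_formula]
      refine (realize_long _ _).2 ?_
      have := hN ⟨θ', hθ'⟩
      simp only [str_len]
      omega)
  exact ⟨b, fun w => hb _ ⟨w, rfl⟩⟩

/-- The main theorem. -/
theorem main : ∃ (L : FirstOrder.Language.{0, 0}) (T : L.Theory) (M : Type) (_ : L.Structure M)
    (φ : L.Formula (Fin 2 ⊕ Fin 1)),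
    Countable L.Symbols ∧ Countable M ∧ T.IsComplete ∧ IsDpMinimal T ∧ M ⊨ T ∧
    (∃ (κ : Cardinal.{0}) (U : Type) (_ : L.Structure U), IsMonster T κ U ∧
      Nonempty (M ↪ₑ[L] U)) ∧
    ∀ (κ : Cardinal.{0}) (U : Type) [L.Structure U], IsMonster T κ U → ∀ i : M ↪ₑ[L] U,
      ∃ b : Fin 1 → U, ¬ Forks (Set.range i) (⟨1, φ, b⟩ : Fml L 2 U) ∧
        ∀ p : Set (Fml L 2 U), IsTypeOver Set.univ p → IsDefinableOver (Set.range i) p →
          (⟨1, φ, b⟩ : Fml L 2 U) ∉ p := by
  refine ⟨LW, LW.completeTheory W, W, inferInstance, phi, inferInstance, inferInstance,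
    completeTheory.isComplete LW W, dpMinimal, inferInstance,
    ⟨ℵ₁, Ult W, inferInstance, monster, ⟨diag⟩⟩, ?_⟩
  intro κ U _ hU i
  obtain ⟨b, hb⟩ := exists_long hU i
  exact ⟨b, not_forks pT_inv phi_mem, fun p hp hd => not_definable hb hp hd⟩

end Pool.Agent.L5helper53.DF
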