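import Pool.Agent.L5helper53.DF.Back
import Mathlib.ModelTheory.Satisfiability

/-!
The language, the structure of the finite binary strings, and the invariance of formulas.
-/

set_option linter.unusedSectionVars false

namespace Pool.Agent.L5helper53.DF

open FirstOrder FirstOrder.Language

theorem isLeast_of_forall {ι : Type*} {S : Set ι} {f : ι → ℤ} {V : ℕ}
    (h : ∀ u : ℕ, u ≤ V ↔ ∀ t ∈ S, (u : ℤ) ≤ f t) : IsLeast (f '' S) (V : ℤ) := by
  have h1 := (h V).1 le_rfl
  constructor
  · by_contra hc
    have h2 : V + 1 ≤ V := by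
      rw [h]
      intro t ht
      have h3 := h1 t ht
      have h4 : f t ≠ V := fun h5 => hc ⟨t, ht, h5⟩
      push_cast
      omega
    omega
  · rintro _ ⟨t, ht, rfl⟩
    exact h1 t ht

section relabel

variable {ι κ : Type} [Fintype ι] [Fintype κ]

open Classical in
/-- Coefficients pushed forward. -/
noncomputable def push (e : ι → κ) (c : ι → ZMod 2) : κ → ZMod 2 :=
  fun k => ∑ i, if e i = k then c i else 0

theorem sum_push (e : ι → κ) (c : ι → ZMod 2) (F : κ → ZMod 2) :
    ∑ k, push e c k * F k = ∑ i, c i * F (e i) := by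
  classical
  unfold push
  simp only [Finset.sum_mul]
  rw [Finset.sum_comm]
  apply Finset.sum_congr rfl
  intro i _
  rw [Finset.sum_eq_single (e i)]
  · simp
  · intro k _ hk
    rw [if_neg (fun h => hk h.symm), zero_mul]
  · intro h
    simp at h

theorem par_comp (e : ι → κ) (c : ι → ZMod 2) (a : κ → W) (s : ℕ) :
    par c (a ∘ e) s = par (push e c) a s := by
  unfold par
  rw [sum_push e c (fun k => if (a k).len = s then 1 else 0)]
  rfl

theorem hs_comp (e : ι → κ) (c : ι → ZMod 2) (a : κ → W) (s : ℕ) :
    hs c (a ∘ e) s = hs (push e c) a s := by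
  unfold hs
  rw [sum_push e c (fun k => (a k).bit s)]
  rfl

theorem push_ne {e : ι → κ} {c : ι → ZMod 2} {k : κ} (h : push e c k ≠ 0) :
    ∃ i, e i = k ∧ c i ≠ 0 := by
  classical
  by_contra hc
  push Not at hc
  apply h
  unfold push
  apply Finset.sum_eq_zero
  intro i _
  by_cases hi : e i = k
  · rw [if_pos hi, hc i hi]
  · rw [if_neg hi]

theorem bal_comp (e : ι → κ) (c : ι → ZMod 2) (a : κ → W) :
    Bal c (a ∘ e) ↔ Bal (push e c) a := by
  unfold Bal
  simp only [par_comp]

/-- The landmarks of a tuple obtained by repeating, omitting and permuting entries are minima of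
landmarks. -/
theorem val_comp (e : ι → κ) (a : κ → W) (P : (κ → ZMod 2) → Prop) [DecidablePred P]
    (hP : ∀ c, P c ↔ Bal c a) [DecidableEq (ι → ZMod 2)] [DecidableEq (κ → ZMod 2)] (t : Tm ι) :
    IsLeast ((val a) ''
      (match t with
        | none => {none}
        | some (.inl i) => {some (.inl (e i))}
        | some (.inr c) => if c = 0 ∨ ¬ P (push e c) then {none} else
            {t | t = some (.inr (push e c)) ∧ push e c ≠ 0} ∪
              {t | ∃ i, c i ≠ 0 ∧ t = some (.inl (e i))})) (val (a ∘ e) t) := by
  match t with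
  | none => simp [val]
  | some (.inl i) => simp [val]
  | some (.inr c) =>
    by_cases hc : c = 0 ∨ ¬ P (push e c)
    · simp only [hc, if_true]
      have h0 : vv c (a ∘ e) = 0 := by
        rcases hc with hc | hc
        · rw [hc, vv_zero]
        · rw [hP, ← bal_comp] at hc
          exact vv_of_not_bal hc
      simp [val, h0]
    · simp only [hc, if_false]
      push Not at hc
      obtain ⟨hc0, hcP⟩ := hc
      rw [hP] at hcP
      have hbal : Bal c (a ∘ e) := (bal_comp e c a).2 hcP
      apply isLeast_of_forall
      intro u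
      rw [le_vv hc0 hbal]
      unfold Cond
      simp only [hs_comp, hbal, hc0, ne_eq, not_false_eq_true, true_and, Function.comp_apply]
      constructor
      · rintro ⟨h1, h2⟩ t (⟨rfl, ht⟩ | ⟨i, hi, rfl⟩)
        · simp only [val]
          have : u ≤ vv (push e c) a := by
            rw [le_vv ht hcP]
            refine ⟨ht, hcP, fun k hk => ?_, h2⟩
            obtain ⟨i, rfl, hi⟩ := push_ne hk
            exact h1 i hi
          exact_mod_cast this
        · simp only [val]
          exact_mod_cast h1 i hi
      · intro h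
        constructor
        · intro i hi
          have := h (some (.inl (e i))) (Or.inr ⟨i, hi, rfl⟩)
          simp only [val] at this
          exact_mod_cast this
        · intro j hj
          by_cases h0 : push e c = 0
          · rw [h0]
            simp [hs]
          · have := h (some (.inr (push e c))) (Or.inl ⟨rfl, h0⟩)
            simp only [val] at this
            exact ((le_vv h0 hcP).1 (by exact_mod_cast this)).2.2.2 j hj

theorem Sim.relabel {d : ℕ} {a a' : κ → W} (h : Sim d (val a) (val a')) (e : ι → κ) :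
    Sim d (val (a ∘ e)) (val (a' ∘ e)) := by
  classical
  exact h.least _ (val_comp e a (fun c => Bal c a) (fun _ => Iff.rfl))
    (val_comp e a' (fun c => Bal c a) (fun c => h.bal_iff c))

theorem eq_iff_val [DecidableEq κ] (a : κ → W) {i j : κ} (hij : i ≠ j) : a i = a j ↔
    (a i).len = (a j).len ∧ (a i).len ≤ vv (Pi.single i 1 + Pi.single j 1) a := by
  have hc : (Pi.single i 1 + Pi.single j 1 : κ → ZMod 2) ≠ 0 := by
    intro h
    have := congrFun h i
    simp [Pi.single_eq_of_ne hij] at this
  have hsum : ∀ F : κ → ZMod 2,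
      ∑ k, (Pi.single i 1 + Pi.single j 1 : κ → ZMod 2) k * F k = F i + F j := by
    intro F
    simp only [Pi.add_apply, add_mul, Finset.sum_add_distrib]
    congr 1
    · rw [Finset.sum_eq_single i]
      · simp
      · intro k _ hk
        simp [Pi.single_eq_of_ne hk]
      · intro h
        simp at h
    · rw [Finset.sum_eq_single j]
      · simp
      · intro k _ hk
        simp [Pi.single_eq_of_ne hk]
      · intro h
        simp at h
  have hbal : (a i).len = (a j).len → Bal (Pi.single i 1 + Pi.single j 1 : κ → ZMod 2) a := by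
    intro h s
    unfold par
    rw [hsum, h, zmod2_add_self]
  have hle : ∀ k, (Pi.single i 1 + Pi.single j 1 : κ → ZMod 2) k ≠ 0 → k = i ∨ k = j := by
    intro k hk
    by_contra hn
    push Not at hn
    apply hk
    simp [Pi.single_eq_of_ne hn.1, Pi.single_eq_of_ne hn.2]
  constructor
  · intro h
    have hl : (a i).len = (a j).len := by rw [h]
    refine ⟨hl, ?_⟩
    rw [le_vv hc (hbal hl)]
    refine ⟨hc, hbal hl, ?_, ?_⟩
    · intro k hk
      rcases hle k hk with rfl | rfl
      · exact le_rfl
      · exact hl.le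
    · intro m _
      unfold hs
      rw [hsum, h, zmod2_add_self]
  · rintro ⟨hl, h⟩
    rw [le_vv hc (hbal hl)] at h
    apply W.ext' hl
    intro m hm
    have := h.2.2.2 m hm
    unfold hs at this
    rw [hsum, zmod2_add_eq_zero] at this
    exact this

theorem Sim.apply_eq {d : ℕ} {a a' : κ → W} (h : Sim d (val a) (val a')) (i j : κ) :
    a i = a j ↔ a' i = a' j := by
  classical
  by_cases hij : i = j
  · simp [hij]
  · rw [eq_iff_val a hij, eq_iff_val a' hij]
    refine and_congr (h.len_iff i j) ?_
    have := h.le_iff (some (.inl i)) (some (.inr (Pi.single i 1 + Pi.single j 1)))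
    simp only [val] at this
    exact_mod_cast this

end relabel

/-- The language: for every `m`, relation symbols for the comparison of the landmarks of
`m`-tuples. -/
def LW : FirstOrder.Language.{0, 0} where
  Functions := fun _ => Empty
  Relations := fun m => Tm (Fin m) × Tm (Fin m) × ℤ

/-- The structure on the set of the finite binary strings. -/
noncomputable instance : LW.Structure W where
  funMap := fun f => Empty.elim f
  RelMap := fun {_} r a => val a r.1 - val a r.2.1 ≤ r.2.2

instance : Nonempty W := ⟨str (fun _ => 0) 0⟩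

instance {m : ℕ} : IsEmpty (LW.Functions m) := inferInstanceAs (IsEmpty Empty)

theorem relMap_iff {m : ℕ} (r : LW.Relations m) (a : Fin m → W) :
    Structure.RelMap r a ↔ val a r.1 - val a r.2.1 ≤ r.2.2 := Iff.rfl

theorem term_var {α : Type} (t : LW.Term α) : ∃ i, t = Term.var i := by
  cases t with
  | var i => exact ⟨i, rfl⟩
  | func f _ => exact isEmptyElim f

theorem snoc_eq {α : Type} {n : ℕ} (a : α → W) (b : Fin n → W) (x : W) :
    (ext (Sum.elim a b) x) ∘ (Sum.elim (fun i => some (Sum.inl i))
      (Fin.snoc (fun j => some (Sum.inr j)) none : Fin (n + 1) → Option (α ⊕ Fin n))) =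
      Sum.elim a (Fin.snoc b x : Fin (n + 1) → W) := by
  funext i
  rcases i with i | i
  · rfl
  · refine Fin.lastCases ?_ (fun j => ?_) i
    · simp [ext]
    · simp [ext]

/-- **Invariance of formulas.** -/
theorem formula_sim {α : Type} [Fintype α] {n : ℕ} (φ : LW.BoundedFormula α n) :
    ∃ d : ℕ, ∀ (a a' : α → W) (b b' : Fin n → W),
      Sim d (val (Sum.elim a b)) (val (Sum.elim a' b')) → (φ.Realize a b ↔ φ.Realize a' b') := by
  induction φ with
  | falsum => exact ⟨0, fun _ _ _ _ _ => Iff.rfl⟩
  | equal t₁ t₂ =>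
    refine ⟨0, fun a a' b b' h => ?_⟩
    obtain ⟨i, rfl⟩ := term_var t₁
    obtain ⟨j, rfl⟩ := term_var t₂
    exact h.apply_eq i j
  | rel R ts =>
    refine ⟨R.2.2.natAbs, fun a a' b b' h => ?_⟩
    choose e he using fun i => term_var (ts i)
    obtain rfl : ts = fun i => Term.var (e i) := funext he
    have h1 := (h.relabel e) R.1 R.2.1 R.2.2 (by omega) (by omega)
    exact h1
  | imp f₁ f₂ ih₁ ih₂ =>
    obtain ⟨d₁, h₁⟩ := ih₁
    obtain ⟨d₂, h₂⟩ := ih₂
    refine ⟨max d₁ d₂, fun a a' b b' h => ?_⟩
    rw [BoundedFormula.realize_imp, BoundedFormula.realize_imp,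
      h₁ a a' b b' (h.mono (le_max_left _ _)), h₂ a a' b b' (h.mono (le_max_right _ _))]
  | all f ih =>
    obtain ⟨d, hd⟩ := ih
    refine ⟨2 * d + 1, ?_⟩
    have key : ∀ (a a' : α → W) (b b' : Fin _ → W),
        Sim (2 * d + 1) (val (Sum.elim a b)) (val (Sum.elim a' b')) →
        f.all.Realize a' b' → f.all.Realize a b := by
      intro a a' b b' h hr
      rw [BoundedFormula.realize_all] at hr ⊢
      intro x
      obtain ⟨x', hx'⟩ := back h x
      have h1 := hx'.relabel (Sum.elim (fun i => some (Sum.inl i))
        (Fin.snoc (fun j => some (Sum.inr j)) none : Fin (_ + 1) → Option (α ⊕ Fin _)))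
      rw [snoc_eq, snoc_eq] at h1
      exact (hd _ _ _ _ h1).2 (hr x')
    exact fun a a' b b' h => ⟨key a' a b' b h.symm, key a a' b b' h⟩

theorem formula_sim' {α : Type} [Fintype α] (φ : LW.Formula α) :
    ∃ d : ℕ, ∀ a a' : α → W, Sim d (val a) (val a') → (φ.Realize a ↔ φ.Realize a') := by
  obtain ⟨d, hd⟩ := formula_sim φ
  refine ⟨d, fun a a' h => hd a a' _ _ ?_⟩
  have h1 : ∀ (a : α → W) (b : Fin 0 → W), Sum.elim a b =
      a ∘ (Sum.elim id Fin.elim0 : α ⊕ Fin 0 → α) := by
    intro a b
    funext i
    rcases i with i | i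
    · rfl
    · exact i.elim0
  rw [h1, h1]
  exact h.relabel _

end Pool.Agent.L5helper53.DF
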