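import Mathlib
import Pool.Agent.helper968_exist.Defs

/-!
Generalities: formulas in invariant types do not fork; ultrafilters of assignments for elementary
extensions.
-/

namespace Pool.Agent.L5helper53.DF

open FirstOrder FirstOrder.Language SKF EXA Filter

section forking

variable {L : FirstOrder.Language.{0, 0}} {U : Type} [L.Structure U] {n : ℕ}

theorem sameType_of_indiscernible {A : Set U} {k : ℕ} {b : ℕ → Fin k → U}
    (h : Indiscernible L A b) (i j : ℕ) : SameType L A (b i) (b j) := by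
  intro ψ hψ
  have h1 := h 1 ψ.len (ψ.form.relabel (Sum.map (fun t => ((0 : Fin 1), t)) id)) ψ.par hψ
    (fun _ => i) (fun _ => j) (Subsingleton.strictMono _) (Subsingleton.strictMono _)
  rw [Formula.realize_relabel, Formula.realize_relabel] at h1
  have h2 : ∀ i : ℕ, (Sum.elim (fun t : Fin 1 × Fin k => b i t.2) ψ.par) ∘
      (Sum.map (fun t => ((0 : Fin 1), t)) id) = Sum.elim (b i) ψ.par := by
    intro i
    funext t
    rcases t with t | t <;> rfl
  rw [h2, h2] at h1
  exact h1

theorem type_exists {B : Set U} {q : Set (Fml L n U)} (hq : IsTypeOver B q) {ψ : Fml L n U}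
    (hψ : ψ ∈ q) {s : Set (Fml L n U)} (hs : s.Finite) (hB : ∀ θ ∈ s, θ.Over B)
    (himp : ∀ a : Fin n → U, ψ.Holds a → ∃ θ ∈ s, θ.Holds a) : ∃ θ ∈ s, θ ∈ q := by
  by_contra hc
  push Not at hc
  have h1 : ∀ θ ∈ s, θ.neg ∈ q := fun θ hθ => (hq.complete θ (hB θ hθ)).resolve_left (hc θ hθ)
  obtain ⟨a, ha⟩ := hq.finSat (insert ψ (Fml.neg '' s)) ((hs.image _).insert _) (by
    rintro θ (rfl | ⟨θ, hθ, rfl⟩)
    · exact hψ
    · exact h1 θ hθ)
  obtain ⟨θ, hθ, hθa⟩ := himp a (ha ψ (Set.mem_insert _ _))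
  have h2 := ha θ.neg (Set.mem_insert_of_mem _ ⟨θ, hθ, rfl⟩)
  unfold Fml.Holds Fml.neg at h2
  rw [Formula.realize_not] at h2
  exact h2 hθa

/-- Formulas in invariant types do not fork. -/
theorem not_forks {M : Set U} {q : Set (Fml L n U)} (hq : IsInvariantType M q) {ψ : Fml L n U}
    (hψ : ψ ∈ q) : ¬ Forks M ψ := by
  rintro ⟨s, hs, hdiv, himp⟩
  obtain ⟨θ, hθs, hθq⟩ := type_exists hq.isType hψ hs (fun θ _ i => Set.mem_univ _) himp
  obtain ⟨b, hb0, hind, hno⟩ := hdiv θ hθs
  apply hno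
  intro t ht hts
  refine hq.isType.finSat t ht (hts.trans ?_)
  rintro _ ⟨i, rfl⟩
  have h1 := hq.invariant θ.len θ.form (b 0) (b i) (sameType_of_indiscernible hind 0 i)
  rw [hb0] at h1
  exact h1.1 hθq

end forking

section assignments

variable {L : FirstOrder.Language.{0, 0}} {M U : Type} [L.Structure M] [L.Structure U]
  [Nonempty M]

theorem exists_assignment (i : M ↪ₑ[L] U) (θ : L.Formula (U ⊕ M))
    (h : θ.Realize (Sum.elim id i)) : ∃ ρ : U → M, θ.Realize (Sum.elim ρ id) := by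
  classical
  let S := θ.freeVarFinset
  let f : S → M ⊕ S := fun s => match s.1 with
    | .inl _ => .inr s
    | .inr m => .inl m
  let ψ : L.Formula (M ⊕ S) := BoundedFormula.restrictFreeVar θ f
  have hU : (Formula.iExs S ψ).Realize (i ∘ (id : M → M)) := by
    rw [Formula.realize_iExs]
    refine ⟨fun s => Sum.elim id i s.1, ?_⟩
    change (BoundedFormula.restrictFreeVar θ f).Realize _ _
    rw [BoundedFormula.realize_restrictFreeVar (v' := Sum.elim id i)]
    · exact h
    · rintro ⟨s | s, hs⟩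
      · rfl
      · rfl
  rw [i.map_formula, Formula.realize_iExs] at hU
  obtain ⟨w, hw⟩ := hU
  refine ⟨fun u => if hu : Sum.inl u ∈ S then w ⟨Sum.inl u, hu⟩ else Classical.arbitrary M, ?_⟩
  change (BoundedFormula.restrictFreeVar θ f).Realize _ _ at hw
  rw [BoundedFormula.realize_restrictFreeVar (v' := Sum.elim (fun u => if hu : Sum.inl u ∈ S then
    w ⟨Sum.inl u, hu⟩ else Classical.arbitrary M) id)] at hw
  · exact hw
  · rintro ⟨s | s, hs⟩
    · simp only [Sum.elim_inl, f]
      rw [dif_pos hs]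
      rfl
    · rfl

/-- The filter of the assignments `U → M`, generated by the sets of the assignments which satisfy
a formula true in `U`. -/
def assignFilter (i : M ↪ₑ[L] U) : Filter (U → M) where
  sets := {S | ∃ θ : L.Formula (U ⊕ M), θ.Realize (Sum.elim id i) ∧
    {ρ : U → M | θ.Realize (Sum.elim ρ id)} ⊆ S}
  univ_sets := ⟨⊤, Formula.realize_top.2 trivial, Set.subset_univ _⟩
  sets_of_superset := by
    rintro S S' ⟨θ, h1, h2⟩ hS
    exact ⟨θ, h1, h2.trans hS⟩
  inter_sets := by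
    rintro S S' ⟨θ, h1, h2⟩ ⟨θ', h1', h2'⟩
    refine ⟨θ ⊓ θ', Formula.realize_inf.2 ⟨h1, h1'⟩, ?_⟩
    intro ρ hρ
    have := Formula.realize_inf.1 hρ
    exact ⟨h2 this.1, h2' this.2⟩

instance assignFilter_neBot (i : M ↪ₑ[L] U) : NeBot (assignFilter i) := by
  rw [← forall_mem_nonempty_iff_neBot]
  rintro S ⟨θ, h1, h2⟩
  obtain ⟨ρ, hρ⟩ := exists_assignment i θ h1
  exact ⟨ρ, h2 hρ⟩

/-- An ultrafilter of assignments. -/
noncomputable def assignUlt (i : M ↪ₑ[L] U) : Ultrafilter (U → M) := Ultrafilter.of (assignFilter i)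

theorem assign_iff (i : M ↪ₑ[L] U) (θ : L.Formula (U ⊕ M)) :
    (∀ᶠ ρ in (assignUlt i : Filter (U → M)), θ.Realize (Sum.elim ρ id)) ↔
      θ.Realize (Sum.elim id i) := by
  have key : ∀ θ : L.Formula (U ⊕ M), θ.Realize (Sum.elim id i) →
      ∀ᶠ ρ in (assignUlt i : Filter (U → M)), θ.Realize (Sum.elim ρ id) := by
    intro θ h
    exact Ultrafilter.of_le (assignFilter i) ⟨θ, h, subset_rfl⟩
  constructor
  · intro h
    by_contra hc
    have h1 := key θ.not (by rwa [Formula.realize_not])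
    simp only [Formula.realize_not] at h1
    rw [Ultrafilter.eventually_not] at h1
    exact h1 h
  · exact key θ

/-- The same for formulas with named parameters. -/
theorem assign_iff' (i : M ↪ₑ[L] U) {α β : Type} (θ : L.Formula (α ⊕ β)) (c : α → U)
    (m : β → M) : (∀ᶠ ρ in (assignUlt i : Filter (U → M)), θ.Realize (Sum.elim (ρ ∘ c) m)) ↔
      θ.Realize (Sum.elim c (i ∘ m)) := by
  have h1 := assign_iff i (θ.relabel (Sum.map c m))
  simp only [Formula.realize_relabel, Sum.elim_comp_map, Function.id_comp] at h1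
  exact h1

end assignments

end Pool.Agent.L5helper53.DF
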