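import Pool.Agent.L5helper53.DF.Dp
import Pool.Agent.L5helper53.DF.Gen
import Pool.Agent.helper968_kim.Ult

/-!
The invariant type.
-/

set_option linter.unusedSectionVars false

namespace Pool.Agent.L5helper53.DF

open FirstOrder FirstOrder.Language SKF EXA Filter H968

/-! ### Comparison formulas for arbitrary index sets -/

section cmp

variable {κ κ' : Type} [Fintype κ] [Fintype κ']

/-- Landmarks along a bijection. -/
def tmap (e : κ ≃ κ') : Tm κ → Tm κ'
  | none => none
  | some (.inl i) => some (.inl (e i))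
  | some (.inr c) => some (.inr (c ∘ e.symm))

theorem val_tmap (e : κ ≃ κ') (a : κ' → W) (t : Tm κ) : val a (tmap e t) = val (a ∘ e) t := by
  match t with
  | none => rfl
  | some (.inl i) => rfl
  | some (.inr c) =>
    simp only [tmap, val]
    have h1 : ∀ s, par (c ∘ e.symm) a s = par c (a ∘ e) s := by
      intro s
      unfold par
      rw [← Equiv.sum_comp e]
      simp
    have h2 : ∀ s, hs (c ∘ e.symm) a s = hs c (a ∘ e) s := by
      intro s
      unfold hs
      rw [← Equiv.sum_comp e]
      simp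
    have h3 : ∀ u, Cond (c ∘ e.symm) a u ↔ Cond c (a ∘ e) u := by
      intro u
      unfold Cond Bal
      simp only [h1, h2]
      refine and_congr ?_ (and_congr Iff.rfl (and_congr ?_ Iff.rfl))
      · constructor
        · rintro h rfl
          exact h rfl
        · intro h h'
          apply h
          funext i
          have := congrFun h' (e i)
          simpa using this
      · constructor
        · intro h i hi
          exact h (e i) (by simpa using hi)
        · intro h i hi
          have := h (e.symm i) hi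
          simpa using this
    unfold vv
    simp only [h3]

/-- The relation symbols. -/
def relSym {m : ℕ} (t₁ t₂ : Tm (Fin m)) (z : ℤ) : LW.Relations m := (t₁, t₂, z)

theorem relMap_relSym {m : ℕ} (t₁ t₂ : Tm (Fin m)) (z : ℤ) (a : Fin m → W) :
    Structure.RelMap (relSym t₁ t₂ z) a ↔ val a t₁ - val a t₂ ≤ z := Iff.rfl

/-- The formula for the comparison of two landmarks. -/
noncomputable def cmp (t₁ t₂ : Tm κ) (z : ℤ) : LW.Formula κ :=
  Relations.formula (relSym (tmap (Fintype.equivFin κ) t₁) (tmap (Fintype.equivFin κ) t₂) z)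
    (fun j => Term.var ((Fintype.equivFin κ).symm j))

theorem realize_cmp (t₁ t₂ : Tm κ) (z : ℤ) (a : κ → W) :
    (cmp t₁ t₂ z).Realize a ↔ val a t₁ - val a t₂ ≤ z := by
  unfold cmp
  rw [Formula.realize_rel, relMap_relSym]
  simp only [Term.realize_var]
  rw [show (fun i => a ((Fintype.equivFin κ).symm i)) = a ∘ (Fintype.equivFin κ).symm from rfl,
    val_tmap, val_tmap]
  have : (a ∘ (Fintype.equivFin κ).symm) ∘ (Fintype.equivFin κ) = a := by
    funext i
    simp
  rw [this]

end cmp

/-! ### The strings -/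

/-- The string `1 0 0 0 …`. -/
def e0 : ℕ → ZMod 2 := fun j => if j = 0 then 1 else 0

/-- The string with the entries `1` at `0` and at `n`. -/
def gn (n : ℕ) : ℕ → ZMod 2 := fun j => if j = 0 ∨ j = n then 1 else 0

theorem gn_eq {n j : ℕ} (h : j < n) : gn n j = e0 j := by
  unfold gn e0
  by_cases h0 : j = 0
  · simp [h0]
  · simp [h0, show j ≠ n by omega]

section key

variable {k : ℕ}

/-- The tuple with the two points of the type. -/
def tA (n s : ℕ) (b : Fin k → W) : Fin 2 ⊕ Fin k → W :=
  Sum.elim ![str (fun _ => 0) s, str (gn n) s] b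

/-- The tuple of the approximations. -/
def tB (n : ℕ) (b : Fin k → W) : Fin 2 ⊕ Fin k → W :=
  Sum.elim ![str (fun _ => 0) (n + 1), str e0 (n + 1)] b

theorem par_pair (e : Fin 2 ⊕ Fin k → ZMod 2) (x y : W) (b : Fin k → W) (s : ℕ) :
    par e (Sum.elim ![x, y] b) s = e (.inl 0) * (if x.len = s then 1 else 0) +
      e (.inl 1) * (if y.len = s then 1 else 0) + par (fun i => e (.inr i)) b s := by
  unfold par
  rw [Fintype.sum_sum_type, Fin.sum_univ_two]
  rfl

theorem hs_pair (e : Fin 2 ⊕ Fin k → ZMod 2) (x y : W) (b : Fin k → W) (s : ℕ) :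
    hs e (Sum.elim ![x, y] b) s = e (.inl 0) * x.bit s +
      e (.inl 1) * y.bit s + hs (fun i => e (.inr i)) b s := by
  unfold hs
  rw [Fintype.sum_sum_type, Fin.sum_univ_two]
  rfl

theorem bal_pair_eq {e : Fin 2 ⊕ Fin k → ZMod 2} {x y : W} (hxy : x.len = y.len)
    (he : e (.inl 0) = e (.inl 1)) (b : Fin k → W) :
    Bal e (Sum.elim ![x, y] b) ↔ Bal (fun i => e (.inr i)) b := by
  unfold Bal
  simp only [par_pair, hxy, he, zmod2_add_self, zero_add]

theorem bal_pair_ne {e : Fin 2 ⊕ Fin k → ZMod 2} {x y : W} (hxy : x.len = y.len)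
    (he : e (.inl 0) ≠ e (.inl 1)) {b : Fin k → W} (hb : ∀ i, (b i).len ≠ y.len) :
    ¬ Bal e (Sum.elim ![x, y] b) := by
  intro h
  have h1 := h y.len
  rw [par_pair, hxy] at h1
  have h2 : par (fun i => e (.inr i)) b y.len = 0 := by
    unfold par
    apply Finset.sum_eq_zero
    intro i _
    rw [if_neg (hb i), mul_zero]
  rw [h2] at h1
  simp only [if_true, mul_one, add_zero] at h1
  exact he (zmod2_add_eq_zero.1 h1)

/-- The condition for a pair in the coefficients. -/
theorem cond_pair_one {e : Fin 2 ⊕ Fin k → ZMod 2} {x y : W} (hxy : x.len = y.len)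
    (h0 : e (.inl 0) = 1) (h1 : e (.inl 1) = 1) (b : Fin k → W) (u : ℕ) :
    Cond e (Sum.elim ![x, y] b) u ↔ Bal (fun i => e (.inr i)) b ∧ u ≤ y.len ∧
      (∀ i, e (.inr i) ≠ 0 → u ≤ (b i).len) ∧
      ∀ j < u, x.bit j + y.bit j + hs (fun i => e (.inr i)) b j = 0 := by
  unfold Cond
  rw [bal_pair_eq hxy (h0.trans h1.symm)]
  simp only [hs_pair, h0, h1, one_mul]
  constructor
  · rintro ⟨_, g1, g2, g3⟩
    refine ⟨g1, g2 (.inl 1) (by rw [h1]; decide), fun i hi => g2 (.inr i) hi, g3⟩
  · rintro ⟨g1, g2, g3, g4⟩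
    refine ⟨fun h => ?_, g1, ?_, g4⟩
    · have := congrFun h (.inl 0)
      rw [h0] at this
      simp at this
    · rintro (i | i) hi
      · rcases (show i = 0 ∨ i = 1 by omega) with rfl | rfl
        · change u ≤ x.len
          omega
        · exact g2
      · exact g3 i hi

theorem bal_tA {e : Fin 2 ⊕ Fin k → ZMod 2} (he : e (.inl 0) = e (.inl 1)) (n s : ℕ)
    (b : Fin k → W) : Bal e (tA n s b) ↔ Bal (fun i => e (.inr i)) b :=
  bal_pair_eq (x := str (fun _ => 0) s) (y := str (gn n) s) rfl he b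

theorem bal_tB {e : Fin 2 ⊕ Fin k → ZMod 2} (he : e (.inl 0) = e (.inl 1)) (n : ℕ)
    (b : Fin k → W) : Bal e (tB n b) ↔ Bal (fun i => e (.inr i)) b :=
  bal_pair_eq (x := str (fun _ => 0) (n + 1)) (y := str e0 (n + 1)) rfl he b

theorem cond_tA {e : Fin 2 ⊕ Fin k → ZMod 2} (h0 : e (.inl 0) = 1) (h1 : e (.inl 1) = 1)
    (n s : ℕ) (b : Fin k → W) (u : ℕ) : Cond e (tA n s b) u ↔
      Bal (fun i => e (.inr i)) b ∧ u ≤ s ∧ (∀ i, e (.inr i) ≠ 0 → u ≤ (b i).len) ∧
      ∀ j < u, gn n j + hs (fun i => e (.inr i)) b j = 0 := by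
  have h := cond_pair_one (x := str (fun _ => 0) s) (y := str (gn n) s) rfl h0 h1 b u
  refine h.trans ?_
  simp only [str_len]
  refine and_congr Iff.rfl ?_
  constructor
  · rintro ⟨g1, g2, g3⟩
    refine ⟨g1, g2, fun j hj => ?_⟩
    have := g3 j hj
    have hjs : j < s := lt_of_lt_of_le hj g1
    rwa [str_bit hjs, str_bit hjs, zero_add] at this
  · rintro ⟨g1, g2, g3⟩
    refine ⟨g1, g2, fun j hj => ?_⟩
    have hjs : j < s := lt_of_lt_of_le hj g1
    rw [str_bit hjs, str_bit hjs, zero_add]
    exact g3 j hj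

theorem cond_tB {e : Fin 2 ⊕ Fin k → ZMod 2} (h0 : e (.inl 0) = 1) (h1 : e (.inl 1) = 1)
    (n : ℕ) (b : Fin k → W) (u : ℕ) : Cond e (tB n b) u ↔
      Bal (fun i => e (.inr i)) b ∧ u ≤ n + 1 ∧ (∀ i, e (.inr i) ≠ 0 → u ≤ (b i).len) ∧
      ∀ j < u, e0 j + hs (fun i => e (.inr i)) b j = 0 := by
  have h := cond_pair_one (x := str (fun _ => 0) (n + 1)) (y := str e0 (n + 1)) rfl h0 h1 b u
  refine h.trans ?_
  simp only [str_len]
  refine and_congr Iff.rfl ?_
  constructor
  · rintro ⟨g1, g2, g3⟩
    refine ⟨g1, g2, fun j hj => ?_⟩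
    have := g3 j hj
    have hjs : j < n + 1 := lt_of_lt_of_le hj g1
    rwa [str_bit hjs, str_bit hjs, zero_add] at this
  · rintro ⟨g1, g2, g3⟩
    refine ⟨g1, g2, fun j hj => ?_⟩
    have hjs : j < n + 1 := lt_of_lt_of_le hj g1
    rw [str_bit hjs, str_bit hjs, zero_add]
    exact g3 j hj

/-- The condition for no pair in the coefficients. -/
theorem cond_pair_zero {e : Fin 2 ⊕ Fin k → ZMod 2} {x y : W}
    (h0 : e (.inl 0) = 0) (h1 : e (.inl 1) = 0) (b : Fin k → W) (u : ℕ) :
    Cond e (Sum.elim ![x, y] b) u ↔ (fun i => e (.inr i)) ≠ 0 ∧ Bal (fun i => e (.inr i)) b ∧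
      (∀ i, e (.inr i) ≠ 0 → u ≤ (b i).len) ∧
      ∀ j < u, hs (fun i => e (.inr i)) b j = 0 := by
  unfold Cond Bal
  simp only [hs_pair, par_pair, h0, h1, zero_mul, zero_add]
  refine and_congr ?_ (and_congr Iff.rfl (and_congr ?_ Iff.rfl))
  · constructor
    · intro h h'
      apply h
      funext i
      rcases i with i | i
      · rcases (show i = 0 ∨ i = 1 by omega) with rfl | rfl
        · exact h0
        · exact h1
      · exact congrFun h' i
    · intro h h'
      apply h
      funext i
      exact congrFun h' (.inr i)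
  · constructor
    · intro h i hi
      exact h (.inr i) hi
    · rintro h (i | i) hi
      · rcases (show i = 0 ∨ i = 1 by omega) with rfl | rfl
        · exact absurd h0 hi
        · exact absurd h1 hi
      · exact h i hi

/-- The family of the base landmarks. -/
noncomputable def base (n s : ℕ) (b : Fin k → W) : Option (Option (Tm (Fin 2 ⊕ Fin k))) → ℤ :=
  fun o => o.elim (s : ℤ) fun o => o.elim (n : ℤ) (val (tB n b))

/-- No bad coincidence. -/
def Fine (n : ℕ) (b : Fin k → W) : Prop := ∀ e : Fin 2 ⊕ Fin k → ZMod 2, e (.inl 0) = 1 →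
  e (.inl 1) = 1 → (fun i => e (.inr i)) ≠ 0 → Bal (fun i => e (.inr i)) b → vv e (tB n b) ≠ n

theorem val_tA {n s : ℕ} {b : Fin k → W} (hn : 1 ≤ n) (hs' : ∀ i, (b i).len < s)
    (hf : Fine n b) (P : (Fin k → ZMod 2) → Prop) [DecidablePred P] (hP : ∀ c, P c ↔ Bal c b)
    (t : Tm (Fin 2 ⊕ Fin k)) :
    IsLeast (base n s b ''
      (match t with
        | none => {some (some none)}
        | some (.inl (.inl _)) => {none}
        | some (.inl (.inr i)) => {some (some (some (.inl (.inr i))))}
        | some (.inr e) => if e (.inl 0) ≠ e (.inl 1) then {some (some none)} else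
            if e (.inl 0) = 0 then {some (some (some (.inr e)))} else
            if (fun i => e (.inr i)) = 0 ∨ ¬ P (fun i => e (.inr i)) then {some (some none)} else
              {some none, some (some (some (.inr e)))})) (val (tA n s b) t) := by
  match t with
  | none => simp [val, base]
  | some (.inl (.inl i)) =>
    rcases (show i = 0 ∨ i = 1 by omega) with rfl | rfl <;> simp [val, base, tA]
  | some (.inl (.inr i)) => simp [val, base, tA, tB]
  | some (.inr e) =>
    have hb : ∀ i, (b i).len ≠ (str (gn n) s).len := fun i => (hs' i).ne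
    by_cases h1 : e (.inl 0) ≠ e (.inl 1)
    · have h2 : ¬ Bal e (tA n s b) :=
        bal_pair_ne (x := str (fun _ => 0) s) (y := str (gn n) s) rfl h1 hb
      simp [h1, val, vv_of_not_bal h2, base]
    · simp only [h1, if_false]
      push Not at h1
      by_cases h2 : e (.inl 0) = 0
      · have h3 : e (.inl 1) = 0 := h1.symm.trans h2
        have h4 : vv e (tA n s b) = vv e (tB n b) := by
          unfold vv tA tB
          simp only [cond_pair_zero h2 h3]
        simp [h2, val, base, h4]
      · simp only [h2, if_false]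
        have h3 : e (.inl 0) = 1 := zmod2_ne_zero.1 h2
        have h4 : e (.inl 1) = 1 := h1.symm.trans h3
        have hne : e ≠ 0 := by
          rintro rfl
          exact h2 rfl
        by_cases h5 : (fun i => e (.inr i)) = 0 ∨ ¬ P (fun i => e (.inr i))
        · simp only [h5, if_true]
          have h6 : vv e (tA n s b) = 0 := by
            by_cases hB : Bal (fun i => e (.inr i)) b
            · have h7 : (fun i => e (.inr i)) = 0 := by
                rcases h5 with h5 | h5
                · exact h5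
                · rw [hP] at h5
                  exact absurd hB h5
              by_contra h8
              have h9 := (le_vv (u := 1) hne ((bal_tA h1 n s b).2 hB)).1
                (show 1 ≤ vv e (tA n s b) by omega)
              rw [cond_tA h3 h4] at h9
              have h10 := h9.2.2.2 0 (by omega)
              rw [h7] at h10
              simp [gn, DF.hs] at h10
            · exact vv_of_not_bal fun h => hB ((bal_tA h1 n s b).1 h)
          simp [val, base, h6]
        · simp only [h5, if_false]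
          push Not at h5
          obtain ⟨h5, h6⟩ := h5
          rw [hP] at h6
          have hA : Bal e (tA n s b) := (bal_tA h1 n s b).2 h6
          have hB : Bal e (tB n b) := (bal_tB h1 n b).2 h6
          obtain ⟨i0, hi0⟩ := exists_ne h5
          have cA : ∀ u, u ≤ vv e (tA n s b) ↔ (∀ i, e (.inr i) ≠ 0 → u ≤ (b i).len) ∧
              ∀ j < u, gn n j + DF.hs (fun i => e (.inr i)) b j = 0 := by
            intro u
            rw [le_vv hne hA, cond_tA h3 h4]
            constructor
            · rintro ⟨_, g1, g2, g3⟩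
              exact ⟨g2, g3⟩
            · rintro ⟨g2, g3⟩
              exact ⟨h6, (g2 i0 hi0).trans (hs' i0).le, g2, g3⟩
          have cB : ∀ u, u ≤ vv e (tB n b) ↔ u ≤ n + 1 ∧ (∀ i, e (.inr i) ≠ 0 → u ≤ (b i).len) ∧
              ∀ j < u, e0 j + DF.hs (fun i => e (.inr i)) b j = 0 := by
            intro u
            rw [le_vv hne hB, cond_tB h3 h4]
            exact ⟨fun h => h.2, fun h => ⟨h6, h⟩⟩
          have hfe := hf e h3 h4 h5 h6
          simp only [val]
          apply isLeast_of_forall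
          intro u
          have hlow : ∀ u, u ≤ n → (u ≤ vv e (tA n s b) ↔ u ≤ vv e (tB n b)) := by
            intro u hu
            rw [cA, cB]
            constructor
            · rintro ⟨g1, g2⟩
              refine ⟨by omega, g1, fun j hj => ?_⟩
              rw [← gn_eq (show j < n by omega)]
              exact g2 j hj
            · rintro ⟨_, g1, g2⟩
              refine ⟨g1, fun j hj => ?_⟩
              rw [gn_eq (show j < n by omega)]
              exact g2 j hj
          have hup : vv e (tA n s b) ≤ n := by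
            by_contra hc
            have g1 := (cA (n + 1)).1 (by omega)
            have g2 := (hlow n le_rfl).1 (by omega)
            have g3 : ¬ (n + 1 ≤ vv e (tB n b)) := by
              rw [cB]
              rintro ⟨_, _, g4⟩
              have g5 := g4 n (by omega)
              have g6 := g1.2 n (by omega)
              simp only [gn, e0, or_true, if_true, show n ≠ 0 by omega, if_false] at g5 g6
              rw [zmod2_add_eq_zero] at g5 g6
              rw [← g5] at g6
              exact absurd g6 (by decide)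
            omega
          constructor
          · intro hu t ht
            simp only [Set.mem_insert_iff, Set.mem_singleton_iff] at ht
            rcases ht with rfl | rfl
            · simp only [base, Option.elim]
              omega
            · simp only [base, Option.elim, val]
              have := (hlow u (by omega)).1 hu
              omega
          · intro hall
            have g1 := hall (some none) (by simp)
            have g2 := hall (some (some (some (.inr e)))) (by simp)
            simp only [base, Option.elim, val] at g1 g2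
            exact (hlow u (by omega)).2 (by omega)

/-- The main comparison. -/
theorem sim_tA {d n s : ℕ} {b b' : Fin k → W} (hn : 1 ≤ n)
    (h : Sim (d + 1) (val (tB n b)) (val (tB n b'))) (hf : Fine n b) (hf' : Fine n b')
    (hs1 : ∀ t, val (tB n b) t + d < s) (hs2 : ∀ t, val (tB n b') t + d < s) :
    Sim d (val (tA n s b)) (val (tA n s b')) := by
  classical
  have hlen : ∀ (b : Fin k → W), val (tB n b) (some (.inl (.inl 0))) = (n : ℤ) + 1 := by
    intro b
    simp [val, tB]
  have hbase : Sim d (base n s b) (base n s b') := by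
    rintro (_ | _ | i) (_ | _ | j) z h1 h2
    · simp [base]
    · have g1 := hs1 (some (.inl (.inl 0)))
      rw [hlen] at g1
      simp [base]
    · have g1 := hs1 j
      have g2 := hs2 j
      simp only [base, Option.elim]
      constructor <;> intro _ <;> omega
    · have g1 := hs1 (some (.inl (.inl 0)))
      rw [hlen] at g1
      simp [base]
    · simp [base]
    · have g1 := h (some (.inl (.inl 0))) j (z + 1) (by omega) (by omega)
      rw [hlen, hlen] at g1
      simp only [base, Option.elim]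
      constructor <;> intro _ <;> omega
    · have g1 := hs1 i
      have g2 := hs2 i
      simp only [base, Option.elim]
      constructor <;> intro _ <;> omega
    · have g1 := h i (some (.inl (.inl 0))) (z - 1) (by omega) (by omega)
      rw [hlen, hlen] at g1
      simp only [base, Option.elim]
      constructor <;> intro _ <;> omega
    · simp only [base, Option.elim]
      exact h i j z (by omega) (by omega)
  have hb : ∀ i, (b i).len < s := by
    intro i
    have := hs1 (some (.inl (.inr i)))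
    simp only [val, tB, Sum.elim_inr] at this
    omega
  have hb' : ∀ i, (b' i).len < s := by
    intro i
    have := hs2 (some (.inl (.inr i)))
    simp only [val, tB, Sum.elim_inr] at this
    omega
  have hbal : ∀ c : Fin k → ZMod 2, Bal c b ↔ Bal c b' := by
    intro c
    have h1 := h.bal_iff (Sum.elim (fun _ => 0) c)
    rw [bal_tB (by simp), bal_tB (by simp)] at h1
    exact h1
  exact hbase.least _ (val_tA hn hb hf (fun c => Bal c b) (fun _ => Iff.rfl))
    (val_tA hn hb' hf' (fun c => Bal c b) hbal)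

end key

/-! ### The type -/

section type

variable {U : Type} [LW.Structure U] (i : W ↪ₑ[LW] U)

/-- The invariant type. -/
def pT : Set (Fml LW 2 U) := {ψ | ∀ᶠ n in (hyp : Filter ℕ), ∀ᶠ ρ in (assignUlt i : Filter (U → W)),
  ∀ᶠ s in (hyp : Filter ℕ), ψ.form.Realize (tA n s (ρ ∘ ψ.par))}

variable {i}

theorem ev_iff_ult {X : Type} {F : Ultrafilter X} {p q : X → Prop}
    (h : (∀ᶠ x in (F : Filter X), p x) ↔ ∀ᶠ x in (F : Filter X), q x) :
    ∀ᶠ x in (F : Filter X), (p x ↔ q x) := by
  by_cases hp : ∀ᶠ x in (F : Filter X), p x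
  · filter_upwards [hp, h.1 hp] with x h1 h2
    simp [h1, h2]
  · have h1 : ∀ᶠ x in (F : Filter X), ¬ p x := Ultrafilter.eventually_not.2 hp
    have h2 : ∀ᶠ x in (F : Filter X), ¬ q x := Ultrafilter.eventually_not.2 fun hq => hp (h.2 hq)
    filter_upwards [h1, h2] with x h1 h2
    simp [h1, h2]

theorem sameType_realize {k : ℕ} {c c' : Fin k → U} (h : SameType LW (Set.range i) c c')
    {l : ℕ} (m : Fin l → W) (φ : LW.Formula (Fin k ⊕ Fin l)) :
    φ.Realize (Sum.elim c (i ∘ m)) ↔ φ.Realize (Sum.elim c' (i ∘ m)) :=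
  h ⟨l, φ, i ∘ m⟩ fun t => ⟨m t, rfl⟩

theorem ev_sim {k : ℕ} {c c' : Fin k → U} (h : SameType LW (Set.range i) c c') (n d : ℕ) :
    ∀ᶠ ρ in (assignUlt i : Filter (U → W)),
      Sim d (val (tB n (ρ ∘ c))) (val (tB n (ρ ∘ c'))) := by
  have h1 : ∀ (t₁ t₂ : Tm (Fin 2 ⊕ Fin k)) (z : ℤ), ∀ᶠ ρ in (assignUlt i : Filter (U → W)),
      (val (tB n (ρ ∘ c)) t₁ - val (tB n (ρ ∘ c)) t₂ ≤ z ↔
        val (tB n (ρ ∘ c')) t₁ - val (tB n (ρ ∘ c')) t₂ ≤ z) := by
    intro t₁ t₂ z
    apply ev_iff_ult
    let m : Fin 2 → W := ![str (fun _ => 0) (n + 1), str e0 (n + 1)]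
    let φ : LW.Formula (Fin k ⊕ Fin 2) := (cmp t₁ t₂ z).relabel Sum.swap
    have h2 : ∀ b : Fin k → W, φ.Realize (Sum.elim b m) ↔
        val (tB n b) t₁ - val (tB n b) t₂ ≤ z := by
      intro b
      rw [Formula.realize_relabel, ← realize_cmp]
      have : (Sum.elim b m) ∘ Sum.swap = tB n b := by
        funext x
        rcases x with x | x <;> rfl
      rw [this]
    simp only [← h2]
    rw [assign_iff', assign_iff']
    exact sameType_realize h m φ
  have h2 : ∀ᶠ ρ in (assignUlt i : Filter (U → W)), ∀ t₁ t₂ : Tm (Fin 2 ⊕ Fin k),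
      ∀ z ∈ Finset.Icc (-(d : ℤ)) d, (val (tB n (ρ ∘ c)) t₁ - val (tB n (ρ ∘ c)) t₂ ≤ z ↔
        val (tB n (ρ ∘ c')) t₁ - val (tB n (ρ ∘ c')) t₂ ≤ z) := by
    rw [eventually_all]
    intro t₁
    rw [eventually_all]
    intro t₂
    rw [Filter.eventually_all_finset]
    intro z _
    exact h1 t₁ t₂ z
  filter_upwards [h2] with ρ hρ
  intro t₁ t₂ z hz1 hz2
  exact hρ t₁ t₂ z (Finset.mem_Icc.2 ⟨hz1, hz2⟩)

theorem ev_fine {k : ℕ} (c : Fin k → U) :
    ∀ᶠ n in (hyp : Filter ℕ), ∀ᶠ ρ in (assignUlt i : Filter (U → W)), Fine n (ρ ∘ c) := by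
  have h1 : ∀ e : Fin 2 ⊕ Fin k → ZMod 2, ∀ᶠ n in (hyp : Filter ℕ),
      ∀ᶠ ρ in (assignUlt i : Filter (U → W)), (e (.inl 0) = 1 →
        e (.inl 1) = 1 → (fun i => e (.inr i)) ≠ 0 → Bal (fun i => e (.inr i)) (ρ ∘ c) →
        vv e (tB n (ρ ∘ c)) ≠ n) := by
    intro e
    by_cases he : e (.inl 0) = 1 ∧ e (.inl 1) = 1 ∧ (fun i => e (.inr i)) ≠ 0
    swap
    · apply Eventually.of_forall
      intro n
      apply Eventually.of_forall
      intro ρ g1 g2 g3
      exact absurd ⟨g1, g2, g3⟩ he
    obtain ⟨g1, g2, g3⟩ := he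
    have hne : e ≠ 0 := by
      rintro rfl
      simp at g1
    -- the set of exceptions has at most one element
    have hsub : {n : ℕ | ∀ᶠ ρ in (assignUlt i : Filter (U → W)),
        Bal (fun i => e (.inr i)) (ρ ∘ c) ∧ vv e (tB n (ρ ∘ c)) = n}.Subsingleton := by
      have key : ∀ n n' : ℕ, n < n' → (∀ᶠ ρ in (assignUlt i : Filter (U → W)),
          Bal (fun i => e (.inr i)) (ρ ∘ c) ∧ vv e (tB n (ρ ∘ c)) = n) →
          (∀ᶠ ρ in (assignUlt i : Filter (U → W)),
          Bal (fun i => e (.inr i)) (ρ ∘ c) ∧ vv e (tB n' (ρ ∘ c)) = n') → False := by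
        intro n n' hnn' hn hn'
        obtain ⟨ρ, ⟨hb, h1⟩, ⟨_, h2⟩⟩ := (hn.and hn').exists
        have hB : Bal e (tB n (ρ ∘ c)) := (bal_tB (g1.trans g2.symm) n _).2 hb
        have hB' : Bal e (tB n' (ρ ∘ c)) := (bal_tB (g1.trans g2.symm) n' _).2 hb
        have h3 := (le_vv (u := n + 1) hne hB').1 (by omega)
        have h4 : ¬ (n + 1 ≤ vv e (tB n (ρ ∘ c))) := by omega
        apply h4
        rw [le_vv hne hB, cond_tB g1 g2]
        rw [cond_tB g1 g2] at h3
        obtain ⟨_, _, h5, h6⟩ := h3
        exact ⟨hb, le_rfl, h5, h6⟩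
      intro n hn n' hn'
      rcases lt_trichotomy n n' with h | h | h
      · exact (key n n' h hn hn').elim
      · exact h
      · exact (key n' n h hn' hn).elim
    have hcof : ∀ᶠ n in (hyp : Filter ℕ), n ∉ {n : ℕ | ∀ᶠ ρ in (assignUlt i : Filter (U → W)),
        Bal (fun i => e (.inr i)) (ρ ∘ c) ∧ vv e (tB n (ρ ∘ c)) = n} := by
      exact hyperfilter_le_cofinite hsub.finite.compl_mem_cofinite
    filter_upwards [hcof] with n hn
    have hn' : ∀ᶠ ρ in (assignUlt i : Filter (U → W)),
        ¬ (Bal (fun i => e (.inr i)) (ρ ∘ c) ∧ vv e (tB n (ρ ∘ c)) = n) :=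
      Ultrafilter.eventually_not.2 hn
    filter_upwards [hn'] with ρ hρ
    intro _ _ _ g4 g5
    exact hρ ⟨g4, g5⟩
  have h2 : ∀ᶠ n in (hyp : Filter ℕ), ∀ e : Fin 2 ⊕ Fin k → ZMod 2,
      ∀ᶠ ρ in (assignUlt i : Filter (U → W)), (e (.inl 0) = 1 →
        e (.inl 1) = 1 → (fun i => e (.inr i)) ≠ 0 → Bal (fun i => e (.inr i)) (ρ ∘ c) →
        vv e (tB n (ρ ∘ c)) ≠ n) := by
    rw [eventually_all]
    exact h1
  filter_upwards [h2] with n hn
  rw [← eventually_all] at hn
  filter_upwards [hn] with ρ hρ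
  exact fun e => hρ e

theorem ev_ge (N : ℕ) : ∀ᶠ n in (hyp : Filter ℕ), N ≤ n :=
  (eventually_ge_atTop N).filter_mono Nat.hyperfilter_le_atTop

theorem ev_big {k : ℕ} (b : Fin k → W) (n d : ℕ) :
    ∀ᶠ s : ℕ in (hyp : Filter ℕ), ∀ t, val (tB n b) t + d < s := by
  rw [eventually_all]
  intro t
  filter_upwards [ev_ge (Int.toNat (val (tB n b) t + d) + 1)] with s hs
  omega

theorem pT_invariant {k : ℕ} (φ : LW.Formula (Fin 2 ⊕ Fin k)) {c c' : Fin k → U}
    (h : SameType LW (Set.range i) c c') :
    (⟨k, φ, c⟩ : Fml LW 2 U) ∈ pT i → (⟨k, φ, c'⟩ : Fml LW 2 U) ∈ pT i := by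
  intro hc
  obtain ⟨d, hd⟩ := formula_sim' φ
  change ∀ᶠ n in (hyp : Filter ℕ), ∀ᶠ ρ in (assignUlt i : Filter (U → W)),
    ∀ᶠ s in (hyp : Filter ℕ), φ.Realize (tA n s (ρ ∘ c)) at hc
  change ∀ᶠ n in (hyp : Filter ℕ), ∀ᶠ ρ in (assignUlt i : Filter (U → W)),
    ∀ᶠ s in (hyp : Filter ℕ), φ.Realize (tA n s (ρ ∘ c'))
  filter_upwards [hc, ev_fine c, ev_fine c', ev_ge 1] with n h1 h2 h3 h4
  filter_upwards [h1, h2, h3, ev_sim h n (d + 1)] with ρ g1 g2 g3 g4
  filter_upwards [g1, ev_big (ρ ∘ c) n d, ev_big (ρ ∘ c') n d] with s f1 f2 f3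
  exact (hd _ _ (sim_tA h4 g4 g2 g3 f2 f3)).1 f1

theorem pT_type : IsTypeOver Set.univ (pT i) where
  par_mem := fun _ _ _ => Set.mem_univ _
  complete := by
    intro ψ _
    by_cases h : ψ ∈ pT i
    · exact Or.inl h
    · right
      change ∀ᶠ n in (hyp : Filter ℕ), ∀ᶠ ρ in (assignUlt i : Filter (U → W)),
        ∀ᶠ s in (hyp : Filter ℕ), ψ.form.not.Realize (tA n s (ρ ∘ ψ.par))
      change ¬ ∀ᶠ n in (hyp : Filter ℕ), ∀ᶠ ρ in (assignUlt i : Filter (U → W)),
        ∀ᶠ s in (hyp : Filter ℕ), ψ.form.Realize (tA n s (ρ ∘ ψ.par)) at h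
      simp only [Formula.realize_not]
      simp only [Ultrafilter.eventually_not]
      exact h
  finSat := by
    intro S hS hSp
    have h1 : ∀ᶠ n in (hyp : Filter ℕ), ∀ ψ ∈ S, ∀ᶠ ρ in (assignUlt i : Filter (U → W)),
        ∀ᶠ s in (hyp : Filter ℕ), ψ.form.Realize (tA n s (ρ ∘ ψ.par)) := by
      rw [eventually_all_finite hS]
      exact hSp
    obtain ⟨n, hn⟩ := h1.exists
    rw [← eventually_all_finite hS] at hn
    have h2 : ∀ᶠ ρ in (assignUlt i : Filter (U → W)), ∃ x : Fin 2 → W, ∀ ψ ∈ S,
        ψ.form.Realize (Sum.elim x (ρ ∘ ψ.par)) := by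
      filter_upwards [hn] with ρ hρ
      rw [← eventually_all_finite hS] at hρ
      obtain ⟨s, hs⟩ := hρ.exists
      exact ⟨_, hs⟩
    have := hS.to_subtype
    let θ : LW.Formula (U ⊕ Fin 2) := Formula.iInf fun ψ : S =>
      ψ.1.form.relabel (Sum.elim Sum.inr (Sum.inl ∘ ψ.1.par))
    let χ : LW.Formula (U ⊕ Fin 0) := (Formula.iExs (Fin 2) θ).relabel Sum.inl
    have h3 : ∀ (K : Type) [LW.Structure K] (v : U → K) (w : Fin 0 → K),
        χ.Realize (Sum.elim v w) ↔ ∃ x : Fin 2 → K, ∀ ψ ∈ S,
          ψ.form.Realize (Sum.elim x (v ∘ ψ.par)) := by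
      intro K _ v w
      simp only [χ, θ, Formula.realize_relabel, Formula.realize_iExs, Formula.realize_iInf,
        Subtype.forall]
      apply exists_congr
      intro x
      apply forall_congr'
      intro ψ
      apply forall_congr'
      intro _
      apply iff_of_eq
      congr 1
      funext y
      rcases y with y | y <;> rfl
    have h4 := (assign_iff' i χ id (fun t => t.elim0)).1 (by
      filter_upwards [h2] with ρ hρ
      rw [h3]
      exact hρ)
    rw [h3] at h4
    obtain ⟨x, hx⟩ := h4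
    exact ⟨x, hx⟩

theorem pT_inv : IsInvariantType (Set.range i) (pT i) where
  isType := pT_type
  invariant := fun _ φ _ _ h =>
    ⟨pT_invariant φ h, pT_invariant φ fun ψ hψ => (h ψ hψ).symm⟩

end type

end Pool.Agent.L5helper53.DF
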