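import Pool.Agent.L5helper53.DF.Inv
import Pool.Agent.L5helper53.DF.Defs

/-!
The formula is not contained in a definable type.
-/

set_option linter.unusedSectionVars false

namespace Pool.Agent.L5helper53.DF

open FirstOrder FirstOrder.Language SKF EXA Filter H968

/-! ### An automorphism of the structure of the finite binary strings -/

/-- Add the first entry to the entry `r`. -/
def sh (r : ℕ) (x : W) : W :=
  ⟨x.len, fun j => if j = r ∧ r < x.len then x.bit j + x.bit 0 else x.bit j, by
    intro j hj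
    rw [if_neg (by omega)]
    exact x.supp j hj⟩

theorem sh_of_le {r : ℕ} {x : W} (h : x.len ≤ r) : sh r x = x := by
  refine W.ext' (x := sh r x) (y := x) rfl ?_
  intro j _
  change (if j = r ∧ r < x.len then x.bit j + x.bit 0 else x.bit j) = _
  rw [if_neg (by omega)]

theorem sh_str_zero (r s : ℕ) : sh r (str (fun _ => 0) s) = str (fun _ => 0) s := by
  refine W.ext' (x := sh r (str (fun _ => 0) s)) (y := str (fun _ => 0) s) rfl ?_
  intro j _
  change (if j = r ∧ r < s then (str (fun _ => 0) s).bit j + (str (fun _ => 0) s).bit 0 else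
    (str (fun _ => 0) s).bit j) = _
  simp [str]

theorem sh_str {r s : ℕ} (hr : r < s) (g : ℕ → ZMod 2) :
    sh r (str g s) = str (fun j => if j = r then g j + g 0 else g j) s := by
  refine W.ext' (x := sh r (str g s)) (y := str (fun j => if j = r then g j + g 0 else g j) s)
    rfl ?_
  intro j hj
  change j < s at hj
  change (if j = r ∧ r < s then (str g s).bit j + (str g s).bit 0 else (str g s).bit j) = _
  rw [str_bit hj, str_bit hj, str_bit (show 0 < s by omega)]
  simp [hr]

theorem cond_sh {κ : Type} [Fintype κ] {r : ℕ} (hr : 1 ≤ r) (c : κ → ZMod 2) (a : κ → W) (u : ℕ) :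
    Cond c (sh r ∘ a) u ↔ Cond c a u := by
  have h1 : ∀ s, par c (sh r ∘ a) s = par c a s := fun s => rfl
  unfold Cond Bal
  simp only [h1]
  refine and_congr Iff.rfl (and_congr Iff.rfl ?_)
  have key : (∀ i, c i ≠ 0 → u ≤ (a i).len) → ∀ j < u,
      hs c (sh r ∘ a) j = if j = r then hs c a j + hs c a 0 else hs c a j := by
    intro hle j hj
    by_cases hjr : j = r
    · subst hjr
      rw [if_pos rfl]
      unfold hs
      rw [← Finset.sum_add_distrib]
      apply Finset.sum_congr rfl
      intro i _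
      by_cases hi : c i = 0
      · simp [hi]
      · have := hle i hi
        change c i * (if j = j ∧ j < (a i).len then (a i).bit j + (a i).bit 0 else
          (a i).bit j) = _
        rw [if_pos ⟨rfl, by omega⟩, mul_add]
    · rw [if_neg hjr]
      unfold hs
      apply Finset.sum_congr rfl
      intro i _
      change c i * (if j = r ∧ r < (a i).len then (a i).bit j + (a i).bit 0 else
          (a i).bit j) = _
      rw [if_neg (by tauto)]
  constructor
  · rintro ⟨h2, h3⟩
    refine ⟨h2, fun j hj => ?_⟩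
    have h4 := key h2 j hj
    rw [h3 j hj] at h4
    by_cases hjr : j = r
    · rw [if_pos hjr] at h4
      have h5 := key h2 0 (by omega)
      rw [h3 0 (by omega), if_neg (by omega)] at h5
      rw [← h5, add_zero] at h4
      exact h4.symm
    · rw [if_neg hjr] at h4
      exact h4.symm
  · rintro ⟨h2, h3⟩
    refine ⟨h2, fun j hj => ?_⟩
    rw [key h2 j hj, h3 j hj, h3 0 (by omega)]
    simp

theorem val_sh {κ : Type} [Fintype κ] {r : ℕ} (hr : 1 ≤ r) (a : κ → W) :
    val (sh r ∘ a) = val a := by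
  funext t
  match t with
  | none => rfl
  | some (.inl i) => rfl
  | some (.inr c) =>
    simp only [val]
    unfold vv
    simp only [cond_sh hr]

theorem realize_sh {κ : Type} [Fintype κ] {r : ℕ} (hr : 1 ≤ r) (φ : LW.Formula κ) (a : κ → W) :
    φ.Realize (sh r ∘ a) ↔ φ.Realize a := by
  obtain ⟨d, hd⟩ := formula_sim' φ
  apply hd
  rw [val_sh hr]
  exact fun i j z _ _ => Iff.rfl

/-! ### The formulas -/

/-- The coefficients in the formula `φ`. -/
def cphi : Fin 2 ⊕ Fin 1 → ZMod 2 := Sum.elim (fun _ => 1) fun _ => 0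

/-- The formula `φ(x, y; b)`: the strings `x`, `y` have the same length, this length is larger than
the length of `b`, and the first entries of `x` and `y` are different. -/
noncomputable def phi : LW.Formula (Fin 2 ⊕ Fin 1) :=
  (cmp (some (.inl (.inl 0))) (some (.inl (.inl 1))) 0 ⊓
    cmp (some (.inl (.inl 1))) (some (.inl (.inl 0))) 0) ⊓
  (cmp (some (.inl (.inr 0))) (some (.inl (.inl 0))) (-1) ⊓
    cmp (some (.inr cphi)) none 0)

theorem realize_phi (x y b : W) : phi.Realize (Sum.elim ![x, y] ![b]) ↔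
    x.len = y.len ∧ b.len < x.len ∧ x.bit 0 + y.bit 0 = 1 := by
  unfold phi
  simp only [Formula.realize_inf, realize_cmp]
  have e0 : val (Sum.elim ![x, y] ![b]) (some (.inl (.inl 0))) = (x.len : ℤ) := rfl
  have e1 : val (Sum.elim ![x, y] ![b]) (some (.inl (.inl 1))) = (y.len : ℤ) := rfl
  have e2 : val (Sum.elim ![x, y] ![b]) (some (.inl (.inr 0))) = (b.len : ℤ) := rfl
  have e3 : val (Sum.elim ![x, y] ![b]) none = 0 := rfl
  have e4 : ∀ c, val (Sum.elim ![x, y] ![b]) (some (.inr c)) =
    (vv c (Sum.elim ![x, y] ![b]) : ℤ) := fun _ => rfl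
  rw [e0, e1, e2, e3, e4]
  have key : x.len = y.len → b.len < x.len →
      (vv cphi (Sum.elim ![x, y] ![b]) = 0 ↔ x.bit 0 + y.bit 0 = 1) := by
    intro h1 h2
    have hc := fun u => cond_pair_one (e := cphi) h1 rfl rfl ![b] u
    have hb0 : Bal (fun i => cphi (.inr i)) ![b] := by
      intro s
      simp [par, cphi]
    have hne : cphi ≠ 0 := by
      intro h
      have := congrFun h (.inl 0)
      simp [cphi] at this
    have hB : Bal cphi (Sum.elim ![x, y] ![b]) := (bal_pair_eq h1 rfl ![b]).2 hb0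
    have h3 := (le_vv (u := 1) hne hB)
    rw [hc] at h3
    have h4 : (∀ j < 1, x.bit j + y.bit j + hs (fun i => cphi (.inr i)) ![b] j = 0) ↔
        x.bit 0 + y.bit 0 = 0 := by
      constructor
      · intro h
        have := h 0 (by omega)
        simpa [hs, cphi] using this
      · intro h j hj
        obtain rfl : j = 0 := by omega
        simpa [hs, cphi] using h
    rw [h4] at h3
    constructor
    · intro h5
      rcases zmod2_cases (x.bit 0 + y.bit 0) with h6 | h6
      · have := h3.2 ⟨hb0, by omega, fun i hi => absurd rfl hi, h6⟩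
        omega
      · exact h6
    · intro h5
      by_contra h6
      have := (h3.1 (by omega)).2.2.2
      rw [h5] at this
      exact absurd this (by decide)
  constructor
  · rintro ⟨⟨h1, h2⟩, h3, h4⟩
    have h5 : x.len = y.len := by omega
    have h6 : b.len < x.len := by omega
    exact ⟨h5, h6, (key h5 h6).1 (by omega)⟩
  · rintro ⟨h1, h2, h3⟩
    have := (key h1 h2).2 h3
    refine ⟨⟨by omega, by omega⟩, by omega, by omega⟩

/-- The formula `χ(x, y; u, v)`: the strings `u`, `v` have the same length, it is at most the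
length of `x`, and below this length `x + y = u + v`. -/
noncomputable def chi : LW.Formula (Fin 2 ⊕ Fin 2) :=
  (cmp (some (.inl (.inr 0))) (some (.inl (.inl 0))) 0 ⊓
    cmp (some (.inl (.inr 0))) (some (.inr fun _ => 1)) 0)

theorem realize_chi {x y u v : W} (hxy : x.len = y.len) (huv : u.len = v.len) :
    chi.Realize (Sum.elim ![x, y] ![u, v]) ↔
    u.len ≤ x.len ∧ ∀ j < u.len, x.bit j + y.bit j = u.bit j + v.bit j := by
  unfold chi
  simp only [Formula.realize_inf, realize_cmp]
  have e0 : val (Sum.elim ![x, y] ![u, v]) (some (.inl (.inl 0))) = (x.len : ℤ) := rfl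
  have e2 : val (Sum.elim ![x, y] ![u, v]) (some (.inl (.inr 0))) = (u.len : ℤ) := rfl
  have e4 : ∀ c, val (Sum.elim ![x, y] ![u, v]) (some (.inr c)) =
    (vv c (Sum.elim ![x, y] ![u, v]) : ℤ) := fun _ => rfl
  rw [e0, e2, e4]
  have hc := fun w => cond_pair_one (e := (fun _ => 1 : Fin 2 ⊕ Fin 2 → ZMod 2)) hxy rfl rfl
    ![u, v] w
  have hb0 : Bal (fun i => (fun _ => 1 : Fin 2 ⊕ Fin 2 → ZMod 2) (.inr i)) ![u, v] := by
    intro s
    unfold par
    rw [Fin.sum_univ_two]
    simp [huv, zmod2_add_self]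
  have hne : (fun _ => 1 : Fin 2 ⊕ Fin 2 → ZMod 2) ≠ 0 := by
    intro h
    have := congrFun h (.inl 0)
    simp at this
  have hB : Bal (fun _ => 1 : Fin 2 ⊕ Fin 2 → ZMod 2)
      (Sum.elim ![x, y] ![u, v]) := (bal_pair_eq hxy rfl ![u, v]).2 hb0
  have h3 := le_vv (u := u.len) hne hB
  rw [hc] at h3
  have h4 : ∀ j, x.bit j + y.bit j + hs (fun i => (fun _ => 1 :
      Fin 2 ⊕ Fin 2 → ZMod 2) (.inr i)) ![u, v] j = 0 ↔
      x.bit j + y.bit j = u.bit j + v.bit j := by
    intro j
    unfold hs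
    rw [Fin.sum_univ_two, zmod2_add_eq_zero]
    simp
  simp only [h4] at h3
  constructor
  · rintro ⟨h1, h2⟩
    exact ⟨by omega, (h3.1 (by omega)).2.2.2⟩
  · rintro ⟨h1, h2⟩
    refine ⟨by omega, ?_⟩
    have := h3.2 ⟨hb0, by omega, fun i _ => by
      rcases (show i = 0 ∨ i = 1 by omega) with rfl | rfl
      · exact le_rfl
      · exact huv.le, h2⟩
    omega

/-- The pair of parameters. -/
def YY (t : ℕ) (g : ℕ → ZMod 2) : Fin 2 → W := ![str g t, str (fun _ => 0) t]

section

variable {U : Type} [LW.Structure U] (i : W ↪ₑ[LW] U)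

theorem eta2 {X : Type} (a : Fin 2 → X) : a = ![a 0, a 1] := by
  funext j
  rcases (show j = 0 ∨ j = 1 by omega) with rfl | rfl <;> rfl

theorem eta1 {X : Type} (a : Fin 1 → X) : a = ![a 0] := by
  funext j
  obtain rfl : j = 0 := Subsingleton.elim _ _
  rfl

/-- The element `b` is longer than all the strings of `W`. -/
def Long (b : Fin 1 → U) : Prop := ∀ w : W, (cmp (some (.inl (.inr 0))) (some (.inl (.inl 0)))
  (-1) : LW.Formula (Fin 1 ⊕ Fin 1)).Realize (Sum.elim b (i ∘ ![w]))

theorem realize_long (b w : W) : (cmp (some (.inl (.inr 0))) (some (.inl (.inl 0)))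
    (-1) : LW.Formula (Fin 1 ⊕ Fin 1)).Realize (Sum.elim ![b] ![w]) ↔ w.len < b.len := by
  rw [realize_cmp]
  change (w.len : ℤ) - b.len ≤ -1 ↔ _
  omega

variable {i}

theorem long_ev {b : Fin 1 → U} (hb : Long i b) (w : W) :
    ∀ᶠ ρ in (assignUlt i : Filter (U → W)), w.len < (ρ (b 0)).len := by
  have := (assign_iff' i _ b ![w]).2 (hb w)
  filter_upwards [this] with ρ hρ
  rw [eta1 (ρ ∘ b), realize_long] at hρ
  exact hρ

/-- **No definable type.** -/
theorem not_definable {b : Fin 1 → U} (hb : Long i b) {p : Set (Fml LW 2 U)}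
    (hp : IsTypeOver Set.univ p) (hd : IsDefinableOver (Set.range i) p) :
    (⟨1, phi, b⟩ : Fml LW 2 U) ∉ p := by
  classical
  intro hmem
  obtain ⟨d, hdM, hdp⟩ := hd 2 chi
  choose m hm using hdM
  -- a bound for the lengths of the parameters
  obtain ⟨N, hN⟩ : ∃ N : ℕ, ∀ t, (m t).len ≤ N :=
    ⟨Finset.univ.sup fun t => (m t).len, fun t => Finset.le_sup (f := fun t => (m t).len)
      (Finset.mem_univ t)⟩
  -- existence
  have hex : ∃ g : ℕ → ZMod 2, g 0 = 1 ∧ (⟨2, chi, i ∘ YY (N + 2) g⟩ : Fml LW 2 U) ∈ p := by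
    let G := Fin (N + 2) → ZMod 2
    let hat : G → ℕ → ZMod 2 := fun g j => if h : j < N + 2 then g ⟨j, h⟩ else 0
    let s : Set (Fml LW 2 U) := {θ | ∃ g : G, hat g 0 = 1 ∧ θ = ⟨2, chi, i ∘ YY (N + 2) (hat g)⟩}
    have hsfin : s.Finite := by
      have : s ⊆ Set.range fun g : G => (⟨2, chi, i ∘ YY (N + 2) (hat g)⟩ : Fml LW 2 U) := by
        rintro θ ⟨g, _, rfl⟩
        exact ⟨g, rfl⟩
      exact (Set.finite_range _).subset this
    obtain ⟨θ, ⟨g, hg, rfl⟩, hθp⟩ := type_exists hp hmem hsfin (fun θ _ _ => Set.mem_univ _) (by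
      intro a ha
      by_contra hc
      push Not at hc
      let c : Fin 2 ⊕ Fin 1 → U := Sum.elim a b
      let mm : G × Fin 2 → W := fun q => YY (N + 2) (hat q.1) q.2
      let f : G → LW.Formula ((Fin 2 ⊕ Fin 1) ⊕ (G × Fin 2)) := fun g =>
        if hat g 0 = 1 then (chi.relabel (Sum.elim (fun x => Sum.inl (Sum.inl x))
          fun y => Sum.inr (g, y))).not else ⊤
      let φ : LW.Formula ((Fin 2 ⊕ Fin 1) ⊕ (G × Fin 2)) := phi.relabel Sum.inl ⊓
        (cmp (some (.inl (.inr (0, 1)))) (some (.inl (.inl (.inr 0)))) 0 ⊓ Formula.iInf f)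
      have hreal : ∀ (K : Type) [LW.Structure K] (x : Fin 2 → K) (y : Fin 1 → K)
          (w : G × Fin 2 → K), φ.Realize (Sum.elim (Sum.elim x y) w) ↔
            phi.Realize (Sum.elim x y) ∧ ((cmp (some (.inl (.inr (0, 1))))
              (some (.inl (.inl (.inr 0)))) 0 : LW.Formula ((Fin 2 ⊕ Fin 1) ⊕ (G × Fin 2))).Realize
              (Sum.elim (Sum.elim x y) w) ∧
            ∀ g : G, hat g 0 = 1 → ¬ chi.Realize (Sum.elim x fun y => w (g, y))) := by
        intro K _ x y w
        simp only [φ, f, Formula.realize_inf, Formula.realize_relabel, Formula.realize_iInf]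
        refine and_congr Iff.rfl (and_congr Iff.rfl ?_)
        apply forall_congr'
        intro g
        by_cases hg : hat g 0 = 1
        · simp only [hg, if_true, Formula.realize_not, Formula.realize_relabel, true_imp_iff]
          apply not_congr
          apply iff_of_eq
          congr 1
          funext z
          rcases z with z | z <;> rfl
        · simp only [hg, if_false, false_imp_iff, iff_true]
          exact Formula.realize_top.2 trivial
      have hU : φ.Realize (Sum.elim c (i ∘ mm)) := by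
        rw [hreal]
        refine ⟨ha, ?_, ?_⟩
        · -- from `Long`
          have h1 := (assign_iff' i (cmp (some (.inl (.inr (0, 1))))
            (some (.inl (.inl (.inr 0)))) 0 : LW.Formula ((Fin 2 ⊕ Fin 1) ⊕ (G × Fin 2))) c mm).1
            (by
              filter_upwards [long_ev hb (str (fun _ => 0) (N + 2))] with ρ hρ
              rw [realize_cmp]
              change ((N + 2 : ℕ) : ℤ) - (ρ (b 0)).len ≤ 0
              simp only [str_len] at hρ
              omega)
          exact h1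
        · intro g hg
          exact hc _ ⟨g, hg, rfl⟩
      obtain ⟨ρ, hρ⟩ := ((assign_iff' i φ c mm).2 hU).exists
      rw [show ρ ∘ c = Sum.elim (ρ ∘ a) (ρ ∘ b) from Sum.comp_elim _ _ _, hreal, realize_cmp] at hρ
      obtain ⟨h1, h2, h3⟩ := hρ
      rw [eta2 (ρ ∘ a), eta1 (ρ ∘ b), realize_phi] at h1
      obtain ⟨h4, h5, h6⟩ := h1
      change ((N + 2 : ℕ) : ℤ) - ((ρ ∘ b) 0).len ≤ 0 at h2
      have h7 : N + 2 ≤ ((ρ ∘ a) 0).len := by omega
      let g : G := fun j => ((ρ ∘ a) 0).bit j + ((ρ ∘ a) 1).bit j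
      have hg : ∀ j < N + 2, hat g j = ((ρ ∘ a) 0).bit j + ((ρ ∘ a) 1).bit j := by
        intro j hj
        simp only [hat, g, dif_pos hj]
      apply h3 g (by rw [hg 0 (by omega)]; exact h6)
      rw [eta2 (ρ ∘ a)]
      change chi.Realize (Sum.elim _ (YY (N + 2) (hat g)))
      unfold YY
      rw [realize_chi (u := str (hat g) (N + 2)) (v := str (fun _ => 0) (N + 2)) h4 rfl]
      refine ⟨h7, fun j hj => ?_⟩
      change j < N + 2 at hj
      rw [str_bit hj, str_bit hj, add_zero, hg j hj])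
    exact ⟨hat g, hg, hθp⟩
  -- uniqueness
  have huniq : ∀ g g' : ℕ → ZMod 2, (⟨2, chi, i ∘ YY (N + 2) g⟩ : Fml LW 2 U) ∈ p →
      (⟨2, chi, i ∘ YY (N + 2) g'⟩ : Fml LW 2 U) ∈ p → ∀ j < N + 2, g j = g' j := by
    intro g g' hg hg' j hj
    obtain ⟨a, ha⟩ := hp.finSat {⟨1, phi, b⟩, ⟨2, chi, i ∘ YY (N + 2) g⟩,
      ⟨2, chi, i ∘ YY (N + 2) g'⟩} (by simp) (by
        rintro θ (rfl | rfl | rfl)
        · exact hmem
        · exact hg
        · exact hg')
    have h1 := ha ⟨1, phi, b⟩ (by simp)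
    have h2 := ha ⟨2, chi, i ∘ YY (N + 2) g⟩ (by simp)
    have h3 := ha ⟨2, chi, i ∘ YY (N + 2) g'⟩ (by simp)
    simp only [Fml.Holds] at h1 h2 h3
    have e1 := (assign_iff' i (phi.relabel Sum.inl : LW.Formula ((Fin 2 ⊕ Fin 1) ⊕ Fin 0))
      (Sum.elim a b) Fin.elim0).2 (by
        rw [Formula.realize_relabel]
        exact h1)
    have e2 := (assign_iff' i chi a (YY (N + 2) g)).2 h2
    have e3 := (assign_iff' i chi a (YY (N + 2) g')).2 h3
    obtain ⟨ρ, ⟨f1, f2⟩, f3⟩ := ((e1.and e2).and e3).exists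
    rw [Formula.realize_relabel] at f1
    rw [show (Sum.elim (ρ ∘ Sum.elim a b) Fin.elim0 : (Fin 2 ⊕ Fin 1) ⊕ Fin 0 → W) ∘ Sum.inl =
      Sum.elim (ρ ∘ a) (ρ ∘ b) from (Sum.elim_comp_inl _ _).trans (Sum.comp_elim _ _ _),
      eta2 (ρ ∘ a), eta1 (ρ ∘ b), realize_phi] at f1
    rw [eta2 (ρ ∘ a)] at f2 f3
    unfold YY at f2 f3
    rw [realize_chi (u := str g (N + 2)) (v := str (fun _ => 0) (N + 2)) f1.1 rfl] at f2
    rw [realize_chi (u := str g' (N + 2)) (v := str (fun _ => 0) (N + 2)) f1.1 rfl] at f3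
    have g2 := f2.2 j hj
    have g3 := f3.2 j hj
    rw [str_bit hj, str_bit hj, add_zero] at g2 g3
    rw [← g2, g3]
  -- invariance
  have hinv : ∀ g : ℕ → ZMod 2, (⟨2, chi, i ∘ YY (N + 2) g⟩ : Fml LW 2 U) ∈ p →
      (⟨2, chi, i ∘ YY (N + 2) (fun j => if j = N + 1 then g j + g 0 else g j)⟩ :
        Fml LW 2 U) ∈ p := by
    intro g hg
    rw [hdp] at hg ⊢
    unfold Fml.Holds at hg ⊢
    have hpar : d.par = i ∘ m := funext fun t => (hm t).symm
    rw [hpar, ← Sum.comp_elim, i.map_formula] at hg ⊢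
    rw [← realize_sh (r := N + 1) (by omega)] at hg
    have h1 : sh (N + 1) ∘ Sum.elim (YY (N + 2) g) m =
        Sum.elim (YY (N + 2) (fun j => if j = N + 1 then g j + g 0 else g j)) m := by
      funext t
      rcases t with t | t
      · rcases (show t = 0 ∨ t = 1 by omega) with rfl | rfl
        · exact sh_str (by omega) g
        · exact sh_str_zero _ _
      · exact sh_of_le (show (m t).len ≤ N + 1 by have := hN t; omega)
    rw [h1] at hg
    exact hg
  obtain ⟨g, hg0, hg⟩ := hex
  have h1 := huniq g _ hg (hinv g hg) (N + 1) (by omega)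
  rw [if_pos rfl, hg0] at h1
  generalize g (N + 1) = q at h1
  revert q
  decide

/-- The formula belongs to the invariant type. -/
theorem phi_mem {b : Fin 1 → U} : (⟨1, phi, b⟩ : Fml LW 2 U) ∈ pT i := by
  change ∀ᶠ n in (hyp : Filter ℕ), ∀ᶠ ρ in (assignUlt i : Filter (U → W)),
    ∀ᶠ s in (hyp : Filter ℕ), phi.Realize (tA n s (ρ ∘ b))
  filter_upwards [ev_ge 1] with n hn
  apply Eventually.of_forall
  intro ρ
  filter_upwards [ev_ge ((ρ (b 0)).len + 1)] with s hs
  unfold tA
  rw [eta1 (ρ ∘ b), realize_phi]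
  refine ⟨rfl, ?_, ?_⟩
  · change (ρ (b 0)).len < s
    omega
  · rw [str_bit (by omega), str_bit (by omega)]
    simp [gn]

end

end Pool.Agent.L5helper53.DF
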