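import Pool.Agent.L5helper53.DF.Basic

/-!
Tuples of finite binary strings: landmarks, and the back-and-forth property.
-/

namespace Pool.Agent.L5helper53.DF

/-- Finite binary strings: `bit j` is the `j`-th entry for `j < len`, and `0` otherwise. -/
structure W where
  len : ℕ
  bit : ℕ → ZMod 2
  supp : ∀ j, len ≤ j → bit j = 0

theorem W.ext' {x y : W} (h1 : x.len = y.len) (h2 : ∀ j < x.len, x.bit j = y.bit j) : x = y := by
  obtain ⟨l, b, hb⟩ := x
  obtain ⟨l', b', hb'⟩ := y
  simp only at h1 h2
  subst h1
  have : b = b' := by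
    funext j
    by_cases hj : j < l
    · exact h2 j hj
    · rw [hb j (by omega), hb' j (by omega)]
  subst this
  rfl

/-- The string of length `s` with the entries `f j`. -/
def str (f : ℕ → ZMod 2) (s : ℕ) : W :=
  ⟨s, fun j => if j < s then f j else 0, fun j hj => if_neg (by omega)⟩

@[simp] theorem str_len (f : ℕ → ZMod 2) (s : ℕ) : (str f s).len = s := rfl

theorem str_bit {f : ℕ → ZMod 2} {s j : ℕ} (h : j < s) : (str f s).bit j = f j := if_pos h

theorem zmod2_cases (a : ZMod 2) : a = 0 ∨ a = 1 := by
  revert a
  decide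

theorem zmod2_ne_zero {a : ZMod 2} : a ≠ 0 ↔ a = 1 := by
  revert a
  decide

theorem zmod2_add_self (a : ZMod 2) : a + a = 0 := by
  revert a
  decide

theorem zmod2_add_eq_zero {a b : ZMod 2} : a + b = 0 ↔ a = b := by
  revert a b
  decide

theorem fun_add_self {κ : Type} (c : κ → ZMod 2) : c + c = 0 := by
  funext i
  exact zmod2_add_self _

theorem fun_add_ne_zero {κ : Type} {c c' : κ → ZMod 2} (h : c ≠ c') : c + c' ≠ 0 := by
  intro h0
  apply h
  funext i
  have := congrFun h0 i
  exact zmod2_add_eq_zero.1 this

set_option linter.unusedSectionVars false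

section

variable {κ : Type} [Fintype κ]

/-- The sum of the `j`-th entries of the strings `a i` with `c i = 1`. -/
def hs (c : κ → ZMod 2) (a : κ → W) (j : ℕ) : ZMod 2 := ∑ i, c i * (a i).bit j

/-- The parity of the number of strings of length `s` among the `a i` with `c i = 1`. -/
def par (c : κ → ZMod 2) (a : κ → W) (s : ℕ) : ZMod 2 :=
  ∑ i, c i * (if (a i).len = s then 1 else 0)

theorem hs_add (c c' : κ → ZMod 2) (a : κ → W) (j : ℕ) :
    hs (c + c') a j = hs c a j + hs c' a j := by
  simp only [hs, Pi.add_apply, add_mul, Finset.sum_add_distrib]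

theorem par_add (c c' : κ → ZMod 2) (a : κ → W) (j : ℕ) :
    par (c + c') a j = par c a j + par c' a j := by
  simp only [par, Pi.add_apply, add_mul, Finset.sum_add_distrib]

/-- The number of strings of each length is even. -/
def Bal (c : κ → ZMod 2) (a : κ → W) : Prop := ∀ s, par c a s = 0

/-- The number of strings of each length is even, except for the length `s`. -/
def Lev (c : κ → ZMod 2) (a : κ → W) (s : ℕ) : Prop := ∀ s', par c a s' = if s = s' then 1 else 0

/-- The strings with `c i = 1` sum up to zero below `u`. -/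
def Cond (c : κ → ZMod 2) (a : κ → W) (u : ℕ) : Prop :=
  c ≠ 0 ∧ Bal c a ∧ (∀ i, c i ≠ 0 → u ≤ (a i).len) ∧ ∀ j < u, hs c a j = 0

/-- The largest `u` for which the strings with `c i = 1` sum up to zero below `u` (and `0` if the
strings are not balanced). -/
noncomputable def vv (c : κ → ZMod 2) (a : κ → W) : ℕ := sSup {u | Cond c a u}

theorem Cond.mono {c : κ → ZMod 2} {a : κ → W} {u u' : ℕ} (h : Cond c a u) (hu : u' ≤ u) :
    Cond c a u' :=
  ⟨h.1, h.2.1, fun i hi => hu.trans (h.2.2.1 i hi), fun j hj => h.2.2.2 j (by omega)⟩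

theorem exists_ne {c : κ → ZMod 2} (hc : c ≠ 0) : ∃ i, c i ≠ 0 := by
  by_contra h
  push Not at h
  exact hc (funext h)

theorem cond_bdd (c : κ → ZMod 2) (a : κ → W) : BddAbove {u | Cond c a u} := by
  by_cases hc : c = 0
  · exact ⟨0, fun u hu => absurd hc hu.1⟩
  · obtain ⟨i, hi⟩ := exists_ne hc
    exact ⟨(a i).len, fun u hu => hu.2.2.1 i hi⟩

theorem le_vv {c : κ → ZMod 2} {a : κ → W} (hc : c ≠ 0) (hb : Bal c a) {u : ℕ} :
    u ≤ vv c a ↔ Cond c a u := by
  have h0 : Cond c a 0 := ⟨hc, hb, fun i _ => Nat.zero_le _, fun j hj => absurd hj (by omega)⟩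
  constructor
  · intro h
    have h1 : vv c a ∈ {u | Cond c a u} := Nat.sSup_mem ⟨0, h0⟩ (cond_bdd c a)
    exact Cond.mono h1 h
  · intro h
    exact le_csSup (cond_bdd c a) h

theorem vv_zero (a : κ → W) : vv (0 : κ → ZMod 2) a = 0 := by
  have : {u | Cond (0 : κ → ZMod 2) a u} = ∅ := by
    ext u
    simp [Cond]
  rw [vv, this]
  simp

theorem vv_of_not_bal {c : κ → ZMod 2} {a : κ → W} (h : ¬ Bal c a) : vv c a = 0 := by
  have : {u | Cond c a u} = ∅ := by
    ext u
    simp [Cond, h]
  rw [vv, this]
  simp

theorem vv_cond {c : κ → ZMod 2} {a : κ → W} (hc : c ≠ 0) (hb : Bal c a) : Cond c a (vv c a) :=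
  (le_vv hc hb).1 le_rfl

/-- The index set of the landmarks. -/
abbrev Tm (κ : Type) := Option (κ ⊕ (κ → ZMod 2))

/-- The landmarks of a tuple of strings: `0`, the lengths, and the numbers `vv c a`. -/
noncomputable def val (a : κ → W) : Tm κ → ℤ
  | none => 0
  | some (.inl i) => (a i).len
  | some (.inr c) => vv c a

theorem par_single [DecidableEq κ] (a : κ → W) (i : κ) (s : ℕ) :
    par (Pi.single i 1) a s = if (a i).len = s then 1 else 0 := by
  unfold par
  rw [Finset.sum_eq_single i]
  · simp
  · intro j _ hj
    simp [Pi.single_eq_of_ne hj]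
  · intro h
    simp at h

/-- Balancedness only depends on the equalities between the lengths. -/
theorem bal_iff (c : κ → ZMod 2) (a : κ → W) :
    Bal c a ↔ ∀ j, ∑ i, c i * (if (a i).len = (a j).len then 1 else 0) = 0 := by
  constructor
  · intro h j
    exact h _
  · intro h s
    by_cases hs : ∃ j, (a j).len = s
    · obtain ⟨j, rfl⟩ := hs
      exact h j
    · push Not at hs
      unfold par
      apply Finset.sum_eq_zero
      intro i _
      rw [if_neg (hs i), mul_zero]

theorem lev_iff (c : κ → ZMod 2) (a : κ → W) (i0 : κ) :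
    Lev c a (a i0).len ↔ ∀ j, ∑ i, c i * (if (a i).len = (a j).len then 1 else 0) =
      if (a i0).len = (a j).len then 1 else 0 := by
  constructor
  · intro h j
    exact h _
  · intro h s
    by_cases hs : ∃ j, (a j).len = s
    · obtain ⟨j, rfl⟩ := hs
      exact h j
    · push Not at hs
      rw [if_neg (hs i0)]
      unfold par
      apply Finset.sum_eq_zero
      intro i _
      rw [if_neg (hs i), mul_zero]

theorem Sim.len_iff {d : ℕ} {a a' : κ → W} (h : Sim d (val a) (val a')) (i j : κ) :
    (a i).len = (a j).len ↔ (a' i).len = (a' j).len := by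
  have := h.eq_iff (some (.inl i)) (some (.inl j))
  simp only [val] at this
  omega

theorem Sim.bal_iff {d : ℕ} {a a' : κ → W} (h : Sim d (val a) (val a')) (c : κ → ZMod 2) :
    Bal c a ↔ Bal c a' := by
  rw [DF.bal_iff, DF.bal_iff]
  simp only [h.len_iff]

theorem Sim.lev_iff {d : ℕ} {a a' : κ → W} (h : Sim d (val a) (val a')) (c : κ → ZMod 2)
    (i0 : κ) : Lev c a (a i0).len ↔ Lev c a' (a' i0).len := by
  rw [DF.lev_iff, DF.lev_iff]
  simp only [h.len_iff]

/-- The tuple `a` extended by `x`. -/
def ext (a : κ → W) (x : W) : Option κ → W := fun o => o.elim x a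

/-- The coefficients `1` (at the new element) and `c`. -/
def one' (c : κ → ZMod 2) : Option κ → ZMod 2 := fun o => o.elim 1 c

theorem one'_ne_zero (c : κ → ZMod 2) : one' c ≠ 0 := fun h => by
  have := congrFun h none
  simp [one'] at this

theorem par_ext_one' (c : κ → ZMod 2) (a : κ → W) (x : W) (s : ℕ) :
    par (one' c) (ext a x) s = (if x.len = s then 1 else 0) + par c a s := by
  unfold par
  rw [Fintype.sum_option]
  simp only [one', ext, Option.elim, one_mul]
  rfl

theorem hs_ext_one' (c : κ → ZMod 2) (a : κ → W) (x : W) (j : ℕ) :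
    hs (one' c) (ext a x) j = x.bit j + hs c a j := by
  unfold hs
  rw [Fintype.sum_option]
  simp [one', ext]

theorem bal_ext_one' (c : κ → ZMod 2) (a : κ → W) (x : W) :
    Bal (one' c) (ext a x) ↔ Lev c a x.len := by
  unfold Bal Lev
  apply forall_congr'
  intro s
  rw [par_ext_one', zmod2_add_eq_zero]
  exact eq_comm

theorem Lev.exists {c : κ → ZMod 2} {a : κ → W} {s : ℕ} (h : Lev c a s) :
    ∃ i, c i ≠ 0 ∧ (a i).len = s := by
  by_contra hc
  push Not at hc
  have h1 := h s
  rw [if_pos rfl] at h1
  have h2 : par c a s = 0 := by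
    unfold par
    apply Finset.sum_eq_zero
    intro i _
    by_cases hi : c i = 0
    · rw [hi, zero_mul]
    · rw [if_neg (hc i hi), mul_zero]
  rw [h2] at h1
  exact absurd h1 (by decide)

/-- The condition for `one' c`. -/
theorem cond_ext_one' (c : κ → ZMod 2) (a : κ → W) (x : W) (u : ℕ) :
    Cond (one' c) (ext a x) u ↔ Lev c a x.len ∧ (∀ i, c i ≠ 0 → u ≤ (a i).len) ∧
      ∀ j < u, x.bit j = hs c a j := by
  unfold Cond
  rw [bal_ext_one']
  simp only [hs_ext_one', zmod2_add_eq_zero]
  constructor
  · rintro ⟨_, h1, h2, h3⟩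
    exact ⟨h1, fun i hi => h2 (some i) hi, h3⟩
  · rintro ⟨h1, h2, h3⟩
    refine ⟨one'_ne_zero c, h1, ?_, h3⟩
    rintro (_ | i) hi
    · obtain ⟨i, hi, hi'⟩ := h1.exists
      have := h2 i hi
      simp only [ext, Option.elim]
      omega
    · exact h2 i hi

/-- Coefficients without the new element. -/
theorem vv_ext_zero {c : Option κ → ZMod 2} (hc : c none = 0) (a : κ → W) (x : W) :
    vv c (ext a x) = vv (fun i => c (some i)) a := by
  have h1 : ∀ s, par c (ext a x) s = par (fun i => c (some i)) a s := by
    intro s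
    unfold par
    rw [Fintype.sum_option, hc]
    simp only [ext, Option.elim, zero_mul, zero_add]
    rfl
  have h2 : ∀ s, hs c (ext a x) s = hs (fun i => c (some i)) a s := by
    intro s
    unfold hs
    rw [Fintype.sum_option, hc]
    simp [ext]
  have h3 : ∀ u, Cond c (ext a x) u ↔ Cond (fun i => c (some i)) a u := by
    intro u
    unfold Cond Bal
    simp only [h1, h2]
    refine and_congr ?_ (and_congr Iff.rfl (and_congr ?_ Iff.rfl))
    · constructor
      · intro h h'
        apply h
        funext o
        rcases o with _ | i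
        · exact hc
        · exact congrFun h' i
      · intro h h'
        apply h
        funext i
        exact congrFun h' (some i)
    · constructor
      · intro h i hi
        exact h (some i) hi
      · rintro h (_ | i) hi
        · exact absurd hc hi
        · exact h i hi
  unfold vv
  simp only [h3]

theorem eq_one' {c : Option κ → ZMod 2} (hc : c none ≠ 0) : c = one' fun i => c (some i) := by
  funext o
  rcases o with _ | i
  · exact zmod2_ne_zero.1 hc
  · rfl

/-- The sum of two sets of coefficients of odd level `s` is balanced. -/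
theorem Lev.add {c c' : κ → ZMod 2} {a : κ → W} {s : ℕ} (h : Lev c a s) (h' : Lev c' a s) :
    Bal (c + c') a := by
  intro s'
  rw [par_add, h, h', zmod2_add_self]

/-- The conditions on the branching point `w` of `x`, given by the coefficients `e`. -/
structure Branch (a : κ → W) (x : W) (e : κ → ZMod 2) (w : ℕ) : Prop where
  lev : Lev e a x.len
  le : ∀ i, e i ≠ 0 → w ≤ (a i).len
  eq : ∀ j < w, x.bit j = hs e a j
  ne : ∀ c, Lev c a x.len → (∀ i, c i ≠ 0 → w < (a i).len) → (c = e ∨ w ≤ vv (c + e) a) →
    x.bit w ≠ hs c a w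

/-- The set of landmarks whose minimum is the landmark `one' c` of the extended tuple. -/
def SS [DecidableEq κ] (e c : κ → ZMod 2) : Set (Option (Tm κ)) :=
  if c = e then {none} else
    {none, some (some (.inr (c + e)))} ∪ {t | ∃ i, c i ≠ 0 ∧ t = some (some (.inl i))}

theorem Branch.isLeast [DecidableEq κ] {a : κ → W} {x : W} {e : κ → ZMod 2} {w : ℕ}
    (h : Branch a x e w) {c : κ → ZMod 2} (hc : Lev c a x.len) :
    IsLeast ((fun o : Option (Tm κ) => o.elim (w : ℤ) (val a)) '' SS e c)
      (vv (one' c) (ext a x) : ℤ) := by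
  have hbal : Bal (one' c) (ext a x) := (bal_ext_one' c a x).2 hc
  have hle : ∀ u, u ≤ vv (one' c) (ext a x) ↔ (∀ i, c i ≠ 0 → u ≤ (a i).len) ∧
      ∀ j < u, x.bit j = hs c a j := by
    intro u
    rw [le_vv (one'_ne_zero c) hbal, cond_ext_one']
    simp only [hc, true_and]
  by_cases hce : c = e
  · subst hce
    rw [SS, if_pos rfl]
    have h1 : vv (one' c) (ext a x) = w := by
      apply le_antisymm
      · by_contra hlt
        have h2 := (hle (w + 1)).1 (by omega)
        exact h.ne c hc (fun i hi => by have := h2.1 i hi; omega) (Or.inl rfl)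
          (h2.2 w (by omega))
      · rw [hle]
        exact ⟨h.le, h.eq⟩
    rw [h1]
    simp [isLeast_singleton]
  · rw [SS, if_neg hce]
    have hce' : c + e ≠ 0 := fun_add_ne_zero hce
    have hbe : Bal (c + e) a := hc.add h.lev
    have hve := fun u => le_vv (u := u) hce' hbe
    -- membership in the set: lower bound
    set V := vv (one' c) (ext a x) with hV
    have hVle := (hle V).1 le_rfl
    have hVw : V ≤ w := by
      by_contra hlt
      -- then x agrees with c beyond w
      have h2 := (hle (w + 1)).1 (by omega)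
      apply h.ne c hc (fun i hi => by have := h2.1 i hi; omega) (Or.inr ?_) (h2.2 w (by omega))
      rw [hve]
      refine ⟨hce', hbe, ?_, ?_⟩
      · intro i hi
        rcases eq_or_ne (c i) 0 with h0 | h0
        · refine h.le i fun h1 => hi ?_
          simp [h0, h1]
        · have := h2.1 i h0
          omega
      · intro j hj
        rw [hs_add, ← h2.2 j (by omega), ← h.eq j hj, zmod2_add_self]
    have hVv : V ≤ vv (c + e) a := by
      rw [hve]
      refine ⟨hce', hbe, ?_, ?_⟩
      · intro i hi
        rcases eq_or_ne (c i) 0 with h0 | h0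
        · refine hVw.trans (h.le i fun h1 => hi ?_)
          simp [h0, h1]
        · exact hVle.1 i h0
      · intro j hj
        rw [hs_add, ← hVle.2 j hj, ← h.eq j (by omega), zmod2_add_self]
    constructor
    · -- V is one of the values
      by_contra hnot
      have n1 : V ≠ w := by
        intro h1
        apply hnot
        exact ⟨none, by simp, by simp [h1]⟩
      have n2 : V ≠ vv (c + e) a := by
        intro h1
        apply hnot
        exact ⟨some (some (.inr (c + e))), by simp, by simp [h1, val]⟩
      have n3 : ∀ i, c i ≠ 0 → V ≠ (a i).len := by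
        intro i hi h1
        apply hnot
        refine ⟨some (some (.inl i)), Or.inr ⟨i, hi, rfl⟩, ?_⟩
        simp [h1, val]
      -- then V + 1 works as well
      have h3 : V + 1 ≤ V := by
        rw [hV, hle, ← hV]
        refine ⟨fun i hi => ?_, fun j hj => ?_⟩
        · have := n3 i hi
          have := hVle.1 i hi
          omega
        · have h4 := ((hve (V + 1)).1 (by omega)).2.2.2 j hj
          rw [hs_add, zmod2_add_eq_zero] at h4
          rw [h4]
          exact h.eq j (by omega)
      omega
    · rintro _ ⟨t, ht, rfl⟩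
      simp only [Set.mem_union, Set.mem_insert_iff, Set.mem_singleton_iff, Set.mem_ofPred_eq] at ht
      rcases ht with (rfl | rfl) | ⟨i, hi, rfl⟩
      · simp only [Option.elim]
        omega
      · simp only [Option.elim, val]
        omega
      · have := hVle.1 i hi
        simp only [Option.elim, val]
        omega

end

end Pool.Agent.L5helper53.DF
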